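import Pool.Agent.Q286.BD.Spec2
import Pool.Agent.Q260.GM.DefsA

set_option autoImplicit false

/-!
# Project OE: the error of the best approximations of Nyman, Beurling and Báez-Duarte

Definitions and exact statements of the lemma jobs, with complete proofs in the docstrings.  The theorem: under the
Riemann hypothesis the error of the best approximation is `(y - ψ(y)) / log N` up to `o(1/√(log N))` in mean square, if and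
only if all zeros are simple; the laws of the place and of the frequency of the error.

Everything is written in the variable `w = log (1/x)`: the space is `L²(ℝ, e^{-w} dw)` (`x = e^{-w}`, `dx = e^{-w} dw`).
`cl g = 1/2 + I g`, `mz` (multiplicity), `dif`, `JJ`, `difR`, `JR`, `S_TR`, `S_TN`, ... are those of
`Pool/Agent/Q286/BD/{Spec,Spec2}.lean`; all `S_...` statements there are proved in `Pool/Agent/Q286/BD/All.lean`.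
`ph w = ψ(e^w) - e^w` and `L2psi` are those of `Pool/Agent/Q260/GM/DefsA.lean`
(`RiemannHypothesis → L2psi`: `Pool.Agent.Q296.GM.L2_of_rh`).
-/

namespace Pool.Agent.Q260.OE

open Complex MeasureTheory Filter Topology Set
open Pool.Agent.Q286.BD (cl mz dif JJ difR JR)
open Pool.Agent.Q260.GM (ph L2psi)

/-! ## objects -/

/-- the kernel of evaluation at `0` on the polynomials of degree `< m` on `[0, 1]`:
`∑_{k<m} (2k+1) P_k`, `P_k` the Legendre polynomials of `[0, 1]` with `P_k(0) = 1` -/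
noncomputable def pm (m : ℕ) : Polynomial ℝ :=
  ∑ k ∈ Finset.range m, Polynomial.C ((2 * k + 1 : ℕ) : ℝ) * (Polynomial.shiftedLegendre k).map (Int.castRingHom ℝ)

/-- ordinates of the zeros on the critical line -/
abbrev Go : Set ℝ := {g : ℝ | riemannZeta (cl g) = 0}

/-- `∑ m² / |ρ|²` over the zeros on the line -/
noncomputable def BB : ℝ := ∑' g : Go, (mz (cl g) : ℝ) ^ 2 / (1 / 4 + (g : ℝ) ^ 2)

/-- the same over a finite set -/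
noncomputable def BS (S : Finset ℝ) : ℝ := ∑ g ∈ S, (mz (cl g) : ℝ) ^ 2 / (1 / 4 + g ^ 2)

/-- the error `χ(x) - ∑ a_θ {θ/x}` at `x = e^{-w}` -/
noncomputable def De (a : ℝ →₀ ℝ) (w : ℝ) : ℝ := difR a (Real.exp (-w))

/-- the model: `(1/L) ∑_{g ∈ S} p_m(w/L) e^{w cl g} / cl g` on `[0, L]` -/
noncomputable def Mo (S : Finset ℝ) (L w : ℝ) : ℂ :=
  if 0 ≤ w ∧ w ≤ L then
    1 / (L : ℂ) * ∑ g ∈ S, (((pm (mz (cl g))).eval (w / L) : ℝ) : ℂ) * cexp (w * cl g) / cl g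
  else 0

/-- the prime error of the zeros in `S`: `∑ m e^{w cl g} / cl g` (so `ph w ≈ - ZS S w`) -/
noncomputable def ZS (S : Finset ℝ) (w : ℝ) : ℂ := ∑ g ∈ S, (mz (cl g) : ℂ) * cexp (w * cl g) / cl g

/-- the transform of the error: `1 + ζ(1/2+it) ∑ a_θ θ^{1/2+it}` -/
noncomputable def TT (a : ℝ →₀ ℝ) (t : ℝ) : ℂ :=
  1 + riemannZeta (cl t) * a.sum fun θ c => (c : ℂ) * (θ : ℂ) ^ (cl t)

/-- the local profile `∫_0^1 p_m(u) e^{-iuv} du` -/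
noncomputable def FF (m : ℕ) (v : ℝ) : ℂ := ∫ u in (0 : ℝ)..1, (((pm m).eval u : ℝ) : ℂ) * cexp (-(u * v * I))

/-- asymptotically optimal families -/
structure Fam (Lf : ℕ → ℝ) (af : ℕ → (ℝ →₀ ℝ)) : Prop where
  tend : Tendsto Lf atTop atTop
  supp : ∀ j, ∀ θ ∈ (af j).support, Real.exp (-(Lf j)) ≤ θ ∧ θ ≤ 1
  opt : Tendsto (fun j => Lf j * JR (af j)) atTop (𝓝 BB)

/-! ## the polynomials -/

/-- JOB LEG. Proof. `P_k = (shiftedLegendre k).map _` has degree `k`, `P_k(0) = 1` (`coeff_shiftedLegendre`). Orthogonality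
`∫_0^1 P_k q = 0` for `deg q < k` and `∫_0^1 P_k² = 1/(2k+1)`: Rodrigues
(`Polynomial.factorial_mul_shiftedLegendre_eq`) and integration by parts, or directly: `∫_0^1 P_k x^j dx =
∑_i (-1)^i C(k,i) C(k+i,k)/(i+j+1)`, which is `(-1)^k k!² ... ` and vanishes for `j < k` (finite differences of
a polynomial). Another way: the polynomial `p` of `S_leg` (`Pool.Agent.Q202.BD.leg`) is unique (two of them differ by
`d` with `deg d < m`, `∫ d² = 0`); prove that `pm m` has the reproducing property.  If `∫ pm m * q = q 0` for all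
`deg q < m` then `q = pm m` gives `∫ (pm m)² = pm m (0) = ∑ (2k+1) = m²` and `q = 1` gives `∫ pm m = 1`. -/
def S_LEG : Prop := ∀ m : ℕ, (pm m).degree < m ∧ (pm m).eval 0 = (m : ℝ) ^ 2 ∧
  (∀ q : Polynomial ℝ, q.degree < m → ∫ u in (0 : ℝ)..1, (pm m).eval u * q.eval u = q.eval 0) ∧
  ∫ u in (0 : ℝ)..1, (pm m).eval u ^ 2 = (m : ℝ) ^ 2 ∧
  (1 ≤ m → ∫ u in (0 : ℝ)..1, (pm m).eval u = 1) ∧
  ∫ u in (0 : ℝ)..1, ((pm m).eval u - m) ^ 2 = 2 * m * ((m : ℝ) - 1)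

/-- JOB FFB. Proof. For `v ≠ 0` integrate by parts: `FF m v = [p(u) e^{-iuv}/(-iv)]_0^1 + (1/(iv)) ∫ p' e^{-iuv}`, so
`‖FF m v‖ ≤ C/|v|`; and `‖FF m v‖ ≤ ∫ |p|`. Continuity: dominated convergence. Parseval for `u ↦ p(u) 1_[0,1](u)` in
`L¹ ∩ L²` (Mathlib / pool Plancherel, see the end of `Pool/Agent/Q237/BD/Mel.lean`), and `∫ p² = m²` by `S_LEG`. -/
def S_FFB : Prop := ∀ m : ℕ, Continuous (FF m) ∧ (∃ C : ℝ, 0 < C ∧ ∀ v : ℝ, ‖FF m v‖ ≤ C / (1 + |v|)) ∧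
  Integrable (fun v : ℝ => ‖FF m v‖ ^ 2) ∧ 1 / (2 * Real.pi) * ∫ v : ℝ, ‖FF m v‖ ^ 2 = (m : ℝ) ^ 2

/-! ## change of variables -/

/-- JOB XW. Proof. `x = e^{-w}`: `exp_sub_int` of `Pool/Agent/Q237/BD/Mel.lean` (image of `univ` under `w ↦ e^{-w}`), applied
to `f 1_{(a,b)}`; integrability of `difR²` is `S_intR`. -/
def S_XW : Prop :=
  (∀ a : ℝ →₀ ℝ, (∀ θ ∈ a.support, 0 < θ ∧ θ ≤ 1) →
    Integrable (fun w : ℝ => De a w ^ 2 * Real.exp (-w)) ∧ ∫ w : ℝ, De a w ^ 2 * Real.exp (-w) = JR a) ∧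
  (∀ (f : ℝ → ℝ) (s t : ℝ), s ≤ t →
    ∫ x in Ioc (Real.exp (-t)) (Real.exp (-s)), f x = ∫ w in Ico s t, f (Real.exp (-w)) * Real.exp (-w)) ∧
  (∀ (f : ℝ → ℝ) (s : ℝ), ∫ x in Ioi (Real.exp (-s)), f x = ∫ w in Iio s, f (Real.exp (-w)) * Real.exp (-w)) ∧
  (∀ (f : ℝ → ℝ) (s : ℝ), ∫ x in Ioc 0 (Real.exp (-s)), f x = ∫ w in Ici s, f (Real.exp (-w)) * Real.exp (-w))

/-! ## the structure of the error -/

/-- JOB STR. Uses `S_TR`, `S_TN`, `S_LEG`, `S_XW`. **Proof** (compare `Pool/Agent/Q210/BD/LowR.lean`, the proof of `lowR`: the same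
objects `K g`, `w g = 1/conj (cl g)`, `k = ∑ w g K g`, `km = ∑ w g Km g`, `M = BS S`; pairing `pairK`, norm bound `hN`,
main term `hmain`). In the variable `y = e^w` put `W(y) = (1/L) y² conj (k y)`. Then in `L²((0,∞), dy/y²)`
`‖D - W‖² = JR a - (2/L) Re ∫ D k + (1/L²) ∫ |k|² y² ≤ JR a - (2/L)(M - C/L) + (1/L²)(√(L M + C) + C)²
≤ JR a - M/L + C L^{-3/2}`. Also `‖W - Wm‖² = (1/L²) ∫ |k - km|² y² ≤ C/L²` with `Wm(y) = (1/L) y² conj (km y)`, and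
`Wm(e^w) = Mo S L w` because `y² conj (y^(-cl g - 1)) = y^(1 - conj (cl g)) = y^(cl g)` and `conj (w g) = 1/cl g`.
So `‖D - Mo‖² ≤ (√(JR a - M/L + C L^{-3/2}) + C/L)² ≤ JR a - M/L + C' L^{-3/2}`, since `JR a ≤ C0/L`. -/
def S_STR : Prop := ∀ (S : Finset ℝ), (∀ g ∈ S, riemannZeta (cl g) = 0) → ∀ C0 : ℝ, 0 < C0 → ∃ C : ℝ, 0 < C ∧
  ∀ L : ℝ, 1 ≤ L → ∀ a : ℝ →₀ ℝ, (∀ θ ∈ a.support, Real.exp (-L) ≤ θ ∧ θ ≤ 1) → JR a ≤ C0 / L →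
  Integrable (fun w : ℝ => ‖(De a w : ℂ) - Mo S L w‖ ^ 2 * Real.exp (-w)) ∧
  ∫ w : ℝ, ‖(De a w : ℂ) - Mo S L w‖ ^ 2 * Real.exp (-w) ≤ JR a - BS S / L + C / L ^ (3 / 2 : ℝ)

/-- JOB MOD. Proof. Expand the square: the term `(g, g')` is `(1/L) ∫_{uL}^{vL} q_g(w/L) q_g'(w/L) e^{iw(g-g')} dw /
(cl g conj (cl g'))` (`|e^{w cl g}|² e^{-w} = 1`) `= ∫_u^v q_g q_g' e^{iLx(g-g')} dx / ...`, which is independent of `L` for
`g = g'` and tends to `0` for `g ≠ g'` (Riemann-Lebesgue or integration by parts). -/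
def S_MOD : Prop := ∀ (S : Finset ℝ) (q : ℝ → Polynomial ℝ) (u v : ℝ), u ≤ v →
  Tendsto (fun L : ℝ => 1 / L * ∫ w in (u * L)..(v * L),
    ‖∑ g ∈ S, (((q g).eval (w / L) : ℝ) : ℂ) * cexp (w * cl g) / cl g‖ ^ 2 * Real.exp (-w)) atTop
    (𝓝 (∑ g ∈ S, (∫ x in u..v, (q g).eval x ^ 2) / (1 / 4 + g ^ 2)))

/-! ## Cramér's theorem -/

/-- the transform of `ph + ZS S` -/
noncomputable def GS (S : Finset ℝ) (δ t : ℝ) : ℂ :=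
  ∫ w in Ioi (0 : ℝ), ((ph w : ℂ) + ZS S w) * cexp (-(((1 / 2 + δ : ℝ) : ℂ) + t * I) * w)

/-- JOB PLG: Plancherel on the half line. Proof: Plancherel for the function `h 1_{(0,∞)} ∈ L¹ ∩ L²` (as at the end of
`Pool/Agent/Q237/BD/Mel.lean`). -/
def S_PLG : Prop := ∀ h : ℝ → ℂ, IntegrableOn h (Ioi 0) → IntegrableOn (fun w => ‖h w‖ ^ 2) (Ioi 0) →
  Integrable (fun t : ℝ => ‖∫ w in Ioi (0 : ℝ), h w * cexp (-(t * w * I))‖ ^ 2) ∧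
  ∫ w in Ioi (0 : ℝ), ‖h w‖ ^ 2 =
    1 / (2 * Real.pi) * ∫ t : ℝ, ‖∫ w in Ioi (0 : ℝ), h w * cexp (-(t * w * I))‖ ^ 2

/-- JOB CR1. Proof. `∫ ph e^{-sw}`: `Pool.Agent.Q213.GM.FF_val` (`= -ζ'/ζ(s)/s - 1/(s-1)`), integrability
`Pool.Agent.Q213.GM.term_int`; square integrability is `L2psi` itself (`θ = 1 + 2δ`). The terms of `ZS`:
`∫_0^∞ e^{(cl g - s) w} dw = 1/(s - cl g)`. Elementary: `1/(ρ(s-ρ)) = (1/s)(1/(s-ρ) + 1/ρ)`. So with `s = 1/2+δ+it`,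
`s * GS = -ζ'/ζ(s) - s/(s-1) + ∑ m/(s - cl g) + ∑ m/cl g`. -/
def S_CR1 : Prop := L2psi → ∀ (S : Finset ℝ) (δ : ℝ), 0 < δ → δ ≤ 1 / 4 →
  IntegrableOn (fun w : ℝ => ((ph w : ℂ) + ZS S w) * cexp (-(((1 / 2 + δ : ℝ) : ℂ) * w))) (Ioi 0) ∧
  IntegrableOn (fun w : ℝ => ‖(ph w : ℂ) + ZS S w‖ ^ 2 * Real.exp (-((1 + 2 * δ) * w))) (Ioi 0) ∧
  ∀ t : ℝ, (((1 / 2 + δ : ℝ) : ℂ) + t * I) * GS S δ t =
    -(deriv riemannZeta (((1 / 2 + δ : ℝ) : ℂ) + t * I) / riemannZeta (((1 / 2 + δ : ℝ) : ℂ) + t * I)) -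
    (((1 / 2 + δ : ℝ) : ℂ) + t * I) / ((((1 / 2 + δ : ℝ) : ℂ) + t * I) - 1) +
    ∑ g ∈ S, (mz (cl g) : ℂ) / ((((1 / 2 + δ : ℝ) : ℂ) + t * I) - cl g) + ∑ g ∈ S, (mz (cl g) : ℂ) / cl g

/-- the near zeros outside `S`: a finite sum -/
noncomputable def Nz (S : Finset ℝ) (δ t : ℝ) : ℝ :=
  ∑' g : Go, if (g : ℝ) ∈ S ∨ 1 < |(g : ℝ) - t| then 0 else (mz (cl g) : ℝ) / ‖(δ : ℂ) + (t - (g : ℝ)) * I‖

/-- JOB CR2: partial fractions. Proof. `ζ'/ζ(1/2+δ+it) = ZZ - YL` (`Pool.Agent.Q260.GM.LD_eq` in `Zl3.lean`),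
`‖YL‖ ≤ 15 log (3+|t|)` (`YL_norm`), `ZZ = ∑ mu ρ hk z (ρ - 1/2)` over all zeros (`pfR` in `Zl.lean`; `mu` is the
multiplicity; under RH the zeros are the points `cl g`, `g ∈ Go`, see `Pool.Agent.Q286.BD.eqv` in `Fin.lean`; `hk_half`:
`hk z ζ = (1/(z-ζ) + 1/(z+ζ))/2`, the zeros are symmetric). Compare with the point `z1 = 1 + it`, as in the proof of `ZZ_norm`
in `Zl3.lean`: `ZZ(z) - ZZ(z1) = ∑ m (1/(z - ig) - 1/(z1 - ig))` (after symmetrisation); the terms with `|g - t| > 1` are at most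
`m C/(1 + (g-t)²)` (sum `≤ C log (3+|t|)`: `zsum_le`), those with `|g-t| ≤ 1`: `1/(z1-ig)` is bounded, and `m/(δ+i(t-g))` stays;
`‖ZZ(z1)‖ ≤ C log` (`ZZ_right`). The terms with `g ∈ S`: cancelled by the sum over `S` if `|g-t| ≤ 1`, otherwise
`m/|t-g| ≤ m`, a constant depending on `S`. -/
def S_CR2 : Prop := RiemannHypothesis → ∀ S : Finset ℝ, (∀ g ∈ S, riemannZeta (cl g) = 0) → ∃ C : ℝ, 0 < C ∧
  ∀ δ t : ℝ, 0 < δ → δ ≤ 1 / 4 →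
  ‖-(deriv riemannZeta (((1 / 2 + δ : ℝ) : ℂ) + t * I) / riemannZeta (((1 / 2 + δ : ℝ) : ℂ) + t * I)) +
    ∑ g ∈ S, (mz (cl g) : ℂ) / ((((1 / 2 + δ : ℝ) : ℂ) + t * I) - cl g)‖ ≤ C * Real.log (|t| + 3) + Nz S δ t

/-- JOB CR3. Uses CR1, CR2, unit interval counts (`Pool.Agent.Y23.zsum_le`, `zsummable`, or `S_cnt`, `S_sum2`). Proof. By CR1, CR2
`|s GS| ≤ C_S log(|t|+3) + Nz` (`|s/(s-1)|` is bounded for `δ ≤ 1/4`), so `‖GS‖² ≤ (2 C_S² log² + 2 Nz²)/(1/4+t²)`. The first part is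
integrable, times `δ` it tends to `0`. Cauchy-Schwarz: `Nz² ≤ (∑' m)(∑' m/(δ²+(t-g)²))` over `|g-t| ≤ 1`, `g ∉ S`, and
`∑_{|g-t|≤1} m ≤ K log(|t|+3)`. Since `∫ δ/(δ²+(t-g)²) dt = π`, `δ ∫ Nz²/(1/4+t²) dt ≤ K' ∑_{g ∉ S} m log(|g|+4)/(1/4+g²)`
(for `|t-g| ≤ 1`: `1/(1/4+t²) ≤ 10/(1/4+g²)`; Tonelli). The series over all `g ∈ Go` converges
(unit interval counts), so its tail outside `S ⊇ S0` is small. -/
def S_CR3 : Prop := RiemannHypothesis → ∀ ε : ℝ, 0 < ε → ∃ S0 : Finset ℝ, (∀ g ∈ S0, riemannZeta (cl g) = 0) ∧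
  ∀ S : Finset ℝ, S0 ⊆ S → (∀ g ∈ S, riemannZeta (cl g) = 0) → ∀ᶠ δ : ℝ in 𝓝[>] 0,
  δ * ∫ t : ℝ, ‖GS S δ t‖ ^ 2 ≤ ε

/-- JOB CR4: **Cramér's mean square theorem** with the approximation by zeros. Uses CR1, CR3, PLG, `L2_of_rh`. Proof. For `L` large
put `δ = 1/L`; on `[0, L]`: `e^{-w} ≤ e² e^{-(1+2δ)w}`. So the left side is at most `e² δ ∫_0^∞ ‖ph+ZS‖² e^{-(1+2δ)w} dw =
e² δ (1/2π) ∫ ‖GS S δ t‖² dt` by PLG with `h w = (ph w + ZS S w) e^{-(1/2+δ)w}`. -/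
def S_CR4 : Prop := RiemannHypothesis → ∀ ε : ℝ, 0 < ε → ∃ S0 : Finset ℝ, (∀ g ∈ S0, riemannZeta (cl g) = 0) ∧
  ∀ S : Finset ℝ, S0 ⊆ S → (∀ g ∈ S, riemannZeta (cl g) = 0) → ∀ᶠ L : ℝ in atTop,
  1 / L * ∫ w in (0 : ℝ)..L, ‖(ph w : ℂ) + ZS S w‖ ^ 2 * Real.exp (-w) ≤ ε

/-! ## the quadratic forms -/

/-- JOB QF: **the error and the prime error**. Uses STR, MOD, CR4, XW, `S_sum2` (`Pool.Agent.Q286.BD.summ_line`), LEG. Proof. All norms in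
`L²([uL, vL], e^{-w} dw)`, `0 ≤ u ≤ v ≤ 1`, `L = Lf j`. For finite `S ⊆ Go`
`√L (α D - β ph/L) = √L α (D - Mo S L) + L^{-1/2} ∑_{g ∈ S} (α p_g(w/L) + β m_g) e^{w cl g}/cl g - β L^{-1/2} (ph + ZS S)`.
The first part has norm² `≤ α² (L JR - BS S + C L^{-1/2}) → α² (BB - BS S)` (STR; `JR ≤ C0/L` by `Fam.opt`), the third
`≤ β² ε` for `S ⊇ S0` and large `L` (CR4), the second has norm² `→ X_S := ∑_{g∈S} (∫_u^v (α p_g + β m_g)²)/(1/4+g²)` (MOD). So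
`|√(value_j) - √(second)| ≤ |α| √(BB - BS S + o(1)) + |β| √ε`, and `BS S → BB`, `X_S → X` along the finite subsets of `Go`
(`∫_0^1 (α p + β m)² ≤ 2(α²+β²) m²` by LEG). Hence the limit. -/
def S_QF : Prop := RiemannHypothesis → ∀ (Lf : ℕ → ℝ) (af : ℕ → (ℝ →₀ ℝ)), Fam Lf af → ∀ α β u v : ℝ, 0 ≤ u → u ≤ v → v ≤ 1 →
  Summable (fun g : Go => (∫ x in u..v, (α * (pm (mz (cl g))).eval x + β * (mz (cl g) : ℝ)) ^ 2) / (1 / 4 + (g : ℝ) ^ 2)) ∧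
  Tendsto (fun j => Lf j * ∫ w in (u * Lf j)..(v * Lf j), (α * De (af j) w - β * ph w / Lf j) ^ 2 * Real.exp (-w)) atTop
    (𝓝 (∑' g : Go, (∫ x in u..v, (α * (pm (mz (cl g))).eval x + β * (mz (cl g) : ℝ)) ^ 2) / (1 / 4 + (g : ℝ) ^ 2)))

/-- JOB COR1 (from QF, LEG, XW): the distance to the prime error, the pairing, the place of the error. Proof. (a) `α = 1, β = -1`,
`u = 0, v = 1`: `∫ (p-m)² = 2m(m-1)`. (b) polarisation: `(α,β) = (1,1)` minus `(1,-1)`, divided by `4`: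
`L ∫ D (-ph/L) e^{-w} → ∑ m ∫ p /(1/4+g²) = ∑ m/(1/4+g²)`. (c) `α = 1, β = 0` on `[0, u]`. (d) total mass `L JR → BB`
minus (c) with `u = 1`, which is `BB` as `∫_0^1 p² = m²`. -/
def S_COR1 : Prop := RiemannHypothesis → ∀ (Lf : ℕ → ℝ) (af : ℕ → (ℝ →₀ ℝ)), Fam Lf af →
  Tendsto (fun j => Lf j * ∫ w in (0 : ℝ)..(Lf j), (De (af j) w + ph w / Lf j) ^ 2 * Real.exp (-w)) atTop
    (𝓝 (∑' g : Go, 2 * (mz (cl g) : ℝ) * ((mz (cl g) : ℝ) - 1) / (1 / 4 + (g : ℝ) ^ 2))) ∧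
  Tendsto (fun j => -∫ w in (0 : ℝ)..(Lf j), De (af j) w * ph w * Real.exp (-w)) atTop
    (𝓝 (∑' g : Go, (mz (cl g) : ℝ) / (1 / 4 + (g : ℝ) ^ 2))) ∧
  (∀ u : ℝ, 0 ≤ u → u ≤ 1 → Tendsto (fun j => Lf j * ∫ w in Iio (u * Lf j), De (af j) w ^ 2 * Real.exp (-w)) atTop
    (𝓝 (∑' g : Go, (∫ x in (0 : ℝ)..u, (pm (mz (cl g))).eval x ^ 2) / (1 / 4 + (g : ℝ) ^ 2)))) ∧
  Tendsto (fun j => Lf j * ∫ w in Ici (Lf j), De (af j) w ^ 2 * Real.exp (-w)) atTop (𝓝 0)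

/-! ## the frequencies -/

/-- JOB PL: Plancherel for the error and the model. Proof. `w ↦ De a w e^{-w/2}` is in `L¹ ∩ L²` (bounded times `e^{-w/2}` for
`w ≥ 0`; for `w < 0`: `De a w = -e^w ∑ a_θ θ` because `θ e^w < 1`), its Fourier transform is
`∫ De a w e^{-(1/2+it)w} dw = TT a t / cl t` (for real `θ` as `fr_mel`, `dif_mellin` in `Pool/Agent/Q237/BD/Mel.lean`:
`∫_0^∞ {θ y} y^{-s-1} dy = -θ^s ζ(s)/s`, `0 < Re s < 1`, by scaling from `θ = 1`). The model: `∫_0^L (1/L) p(w/L)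
e^{w(cl g - cl t)} dw/cl g = FF m ((t-g)L)/cl g`. Then Plancherel (as in `Mel.lean`). -/
def S_PL : Prop := ∀ (S : Finset ℝ) (L : ℝ) (a : ℝ →₀ ℝ), 0 < L → (∀ θ ∈ a.support, 0 < θ ∧ θ ≤ 1) →
  Integrable (fun t : ℝ => ‖TT a t / cl t - ∑ g ∈ S, FF (mz (cl g)) ((t - g) * L) / cl g‖ ^ 2) ∧
  ∫ w : ℝ, ‖(De a w : ℂ) - Mo S L w‖ ^ 2 * Real.exp (-w) =
    1 / (2 * Real.pi) * ∫ t : ℝ, ‖TT a t / cl t - ∑ g ∈ S, FF (mz (cl g)) ((t - g) * L) / cl g‖ ^ 2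

/-- JOB FRQ: the frequencies of the error are the zeros. Uses STR, PL, FFB, `S_cnt`, `S_sum2`. Proof. `M_j(t) = ∑_{g∈S} FF ((t-g)L)/cl g`.
`(L/2π) ∫_α^β ‖M_j‖² → ∑_{g∈S, α<g<β} m²/(1/4+g²)`: the square `g` is `(1/2π) ∫_{(α-g)L}^{(β-g)L} ‖FF v‖² dv/(1/4+g²)`, which tends
to `m²/(1/4+g²)` if `α < g < β` and to `0` if `g < α` or `g > β` (FFB; `g ≠ α, β`); the cross terms are
`≤ L C ∫ dt/((1+|t-g|L)(1+|t-g'|L)) → 0` on bounded intervals. By STR and PL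
`(L/2π) ∫_α^β ‖TT/cl t - M_j‖² ≤ L JR - BS S + C L^{-1/2} → BB - BS S`. Triangle inequality in `L²(α,β)`, `S ↑ Go`. -/
def S_FRQ : Prop := RiemannHypothesis → ∀ (Lf : ℕ → ℝ) (af : ℕ → (ℝ →₀ ℝ)), Fam Lf af → ∀ α β : ℝ, α < β →
  riemannZeta (cl α) ≠ 0 → riemannZeta (cl β) ≠ 0 →
  Tendsto (fun j => Lf j * (1 / (2 * Real.pi) * ∫ t in α..β, ‖TT (af j) t‖ ^ 2 / (1 / 4 + t ^ 2))) atTop
    (𝓝 (∑' g : Go, if α < (g : ℝ) ∧ (g : ℝ) < β then (mz (cl g) : ℝ) ^ 2 / (1 / 4 + (g : ℝ) ^ 2) else 0))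

/-- JOB PRO: the local profile at a zero. Uses STR, PL, FFB. Proof. Let `g0` be the zero, `g0 ∈ S`. Substituting `t = g0 + v/L` in
`L ∫_{|t-g0| ≤ R/L} ‖TT/cl t - M_j‖² dt ≤ 2π (L JR - BS S + C L^{-1/2}) → 2π (BB - BS S)` gives
`limsup ∫_{-R}^R ‖TT(g0+v/L)/cl(g0+v/L) - FF m v/cl g0 - ∑_{g≠g0} FF ((g0-g)L+v)/cl g‖² dv ≤ 2π (BB - BS S)`; the sum over `g ≠ g0` tends to `0`
uniformly (FFB). So the `limsup` of `∫ ‖TT(g0+v/L)/cl(g0+v/L) - FF m v/cl g0‖²` is `≤ 2π (BB - BS S)` for all such `S`, hence `0`; multiply by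
`cl (g0+v/L) → cl g0`. -/
def S_PRO : Prop := RiemannHypothesis → ∀ (Lf : ℕ → ℝ) (af : ℕ → (ℝ →₀ ℝ)), Fam Lf af → ∀ g R : ℝ,
  riemannZeta (cl g) = 0 → 0 < R →
  Tendsto (fun j => ∫ v in (-R)..R, ‖TT (af j) (g + v / Lf j) - FF (mz (cl g)) v‖ ^ 2) atTop (𝓝 0)

end Pool.Agent.Q260.OE
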