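import Pool.Agent.Q260.OE.Fin5
import Pool.Agent.Q123.OE.Frq

set_option autoImplicit false

/-!
# Project OE: simplicity of the zeros in a window and of one zero
-/

namespace Pool.Agent.Q260.OE

open Complex MeasureTheory Filter Topology Set
open Pool.Agent.Q286.BD (cl mz dif JJ difR JR S_up S_low S_sum2 summ_line S_lowR S_intR S_nrhR)
open Pool.Agent.Q260.GM (ph L2psi)

/-! ## windows -/

/-- the transform of the difference of the error and the prime error divided by `log (1/λ)` -/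
noncomputable def GX (lam : ℝ) (a : ℝ →₀ ℝ) (t : ℝ) : ℂ :=
  ∫ x in Ioc lam 1, ((difR a x - PE (1 / x) / Real.log (1 / lam) : ℝ) : ℂ) * (x : ℂ) ^ (cl t - 1)

theorem GX_eq (lam : ℝ) (a : ℝ →₀ ℝ) (t : ℝ) : GX lam a t = WX lam a 1 1 0 1 t := by
  unfold GX WX
  rw [Real.rpow_one, Real.rpow_zero]
  simp only [one_mul]

/-- the gap in a window -/
noncomputable def gapW (lam : ℝ) (a : ℝ →₀ ℝ) (α β : ℝ) : ℝ :=
  Real.log (1 / lam) * (1 / (2 * Real.pi) * ∫ t in α..β, ‖GX lam a t‖ ^ 2)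

/-- its limit -/
noncomputable def W2 (α β : ℝ) : ℝ := ∑' g : Go, if α < (g : ℝ) ∧ (g : ℝ) < β then
  2 * (mz (cl g) : ℝ) * ((mz (cl g) : ℝ) - 1) / (1 / 4 + (g : ℝ) ^ 2) else 0

section window

variable (hPHS : S_PHS) (hLEG : S_LEG) (hPOS : S_POS) (hs : S_sum2) (hRH : RiemannHypothesis)
  {lam : ℕ → ℝ} {a : ℕ → (ℝ →₀ ℝ)} (ho : OptR lam a)
include hPHS hLEG hRH ho

theorem gapW_lim {α β : ℝ} (hαβ : α < β) (hα : riemannZeta (cl α) ≠ 0) (hβ : riemannZeta (cl β) ≠ 0) :
    Tendsto (fun j => gapW (lam j) (a j) α β) atTop (𝓝 (W2 α β)) := by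
  have h := phaseR_lim hPHS hRH ho 1 1 (u := 0) (v := 1) le_rfl zero_le_one le_rfl hαβ hα hβ
  have e : ∀ g : Go, (∫ x in (0 : ℝ)..1, (1 * (pm (mz (cl g))).eval x - 1 * (mz (cl g) : ℝ)) ^ 2) =
      2 * (mz (cl g) : ℝ) * ((mz (cl g) : ℝ) - 1) := by
    intro g
    rw [← (hLEG (mz (cl g))).2.2.2.2.2]
    refine intervalIntegral.integral_congr fun x _ => ?_
    show (1 * (pm (mz (cl g))).eval x - 1 * (mz (cl g) : ℝ)) ^ 2 = _
    rw [one_mul, one_mul]
  simp only [e] at h
  unfold gapW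
  simp only [GX_eq]
  exact h

include hPOS hs

theorem tfae_window {α β : ℝ} (hαβ : α < β) (hα : riemannZeta (cl α) ≠ 0) (hβ : riemannZeta (cl β) ≠ 0) :
    List.TFAE [∀ g : Go, α < (g : ℝ) → (g : ℝ) < β → mz (cl g) = 1,
      Tendsto (fun j => gapW (lam j) (a j) α β) atTop (𝓝 0),
      ∀ ε : ℝ, 0 < ε → ∃ᶠ j in atTop, gapW (lam j) (a j) α β < ε] := by
  have hlim := gapW_lim hPHS hLEG hRH ho hαβ hα hβ
  have hnn : ∀ g : Go, 0 ≤ (if α < (g : ℝ) ∧ (g : ℝ) < β then
      2 * (mz (cl g) : ℝ) * ((mz (cl g) : ℝ) - 1) / (1 / 4 + (g : ℝ) ^ 2) else 0) := by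
    intro g
    split_ifs
    · have h3 : (1 : ℝ) ≤ mz (cl g) := by exact_mod_cast hPOS.1 g
      exact div_nonneg (mul_nonneg (by linarith) (by linarith)) (by positivity)
    · exact le_rfl
  have hsum : Summable (fun g : Go => if α < (g : ℝ) ∧ (g : ℝ) < β then
      2 * (mz (cl g) : ℝ) * ((mz (cl g) : ℝ) - 1) / (1 / 4 + (g : ℝ) ^ 2) else 0) := by
    refine Summable.of_nonneg_of_le hnn (fun g => ?_) ((summ_line hRH hs).mul_left 2)
    have h3 : (1 : ℝ) ≤ mz (cl g) := by exact_mod_cast hPOS.1 g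
    have h4 : (0 : ℝ) < 1 / 4 + (g : ℝ) ^ 2 := by positivity
    split_ifs
    · rw [← mul_div_assoc]
      refine div_le_div_of_nonneg_right ?_ h4.le
      nlinarith
    · positivity
  tfae_have 1 → 2 := by
    intro h
    have e : W2 α β = 0 := by
      unfold W2
      have : ∀ g : Go, (if α < (g : ℝ) ∧ (g : ℝ) < β then
          2 * (mz (cl g) : ℝ) * ((mz (cl g) : ℝ) - 1) / (1 / 4 + (g : ℝ) ^ 2) else 0) = 0 := by
        intro g
        split_ifs with h1
        · rw [h g h1.1 h1.2]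
          simp
        · rfl
      simp only [this, tsum_zero]
    rw [e] at hlim
    exact hlim
  tfae_have 2 → 3 := by
    intro h ε hε
    exact (h.eventually_lt_const hε).frequently
  tfae_have 3 → 1 := by
    intro h
    by_contra hno
    push Not at hno
    obtain ⟨g0, h1, h2, h3⟩ := hno
    have hm : (2 : ℝ) ≤ mz (cl g0) := by
      have h5 := hPOS.1 g0
      exact_mod_cast (by omega : 2 ≤ mz (cl g0))
    have hpos : 0 < W2 α β := by
      refine hsum.tsum_pos hnn g0 ?_
      rw [if_pos ⟨h1, h2⟩]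
      exact div_pos (mul_pos (by linarith) (by linarith)) (by positivity)
    obtain ⟨j, hj1, hj2⟩ := ((h (W2 α β / 2) (by linarith)).and_eventually
      (hlim.eventually_const_lt (by linarith : W2 α β / 2 < W2 α β))).exists
    linarith
  tfae_finish

end window

/-! ## one zero -/

theorem tfae_zero (hPRO : S_PRO) (hFFB : S_FFB) (hRH : RiemannHypothesis) {lam : ℕ → ℝ} {a : ℕ → (ℝ →₀ ℝ)}
    (ho : OptR lam a) {g : ℝ} (hg : riemannZeta (cl g) = 0) :
    mz (cl g) = 1 ↔ ∀ R : ℝ, 0 < R → Tendsto (fun j => ∫ v in (-R)..R,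
      ‖TT (a j) (g + v / Real.log (1 / lam j)) - FF 1 v‖ ^ 2) atTop (𝓝 0) := by
  constructor
  · intro h R hR
    have h1 := proR_lim hRH ho hPRO hg hR
    rw [h] at h1
    exact h1
  · intro h
    set m := mz (cl g) with hm
    have hc : ∀ k : ℕ, Continuous (FF k) := fun k => (hFFB k).1
    have key : ∀ R : ℝ, 0 < R → ∫ v in (-R)..R, ‖FF m v - FF 1 v‖ ^ 2 = 0 := by
      intro R hR
      have h1 := proR_lim hRH ho hPRO hg hR
      have h2 := h R hR
      have h3 := (h1.const_mul 2).add (h2.const_mul 2)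
      simp only [mul_zero, add_zero] at h3
      have h4 : ∀ j, ∫ v in (-R)..R, ‖FF m v - FF 1 v‖ ^ 2 ≤
          2 * (∫ v in (-R)..R, ‖TT (a j) (g + v / Real.log (1 / lam j)) - FF m v‖ ^ 2) +
          2 * ∫ v in (-R)..R, ‖TT (a j) (g + v / Real.log (1 / lam j)) - FF 1 v‖ ^ 2 := by
        intro j
        have hT : Continuous (fun v : ℝ => TT (a j) (g + v / Real.log (1 / lam j))) :=
          (Pool.Agent.Q123.OE.TT_cont (a j)).comp (by fun_prop)
        have i1 : IntervalIntegrable (fun v => 2 * ‖TT (a j) (g + v / Real.log (1 / lam j)) - FF m v‖ ^ 2)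
            volume (-R) R := (((hT.sub (hc m)).norm.pow 2).const_smul (2 : ℝ)).intervalIntegrable _ _
        have i2 : IntervalIntegrable (fun v => 2 * ‖TT (a j) (g + v / Real.log (1 / lam j)) - FF 1 v‖ ^ 2)
            volume (-R) R := (((hT.sub (hc 1)).norm.pow 2).const_smul (2 : ℝ)).intervalIntegrable _ _
        rw [← intervalIntegral.integral_const_mul, ← intervalIntegral.integral_const_mul,
          ← intervalIntegral.integral_add i1 i2]
        refine intervalIntegral.integral_mono_on (by linarith)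
          ((((hc m).sub (hc 1)).norm.pow 2).intervalIntegrable _ _) (i1.add i2) fun v _ => ?_
        have e : FF m v - FF 1 v = (TT (a j) (g + v / Real.log (1 / lam j)) - FF 1 v) -
            (TT (a j) (g + v / Real.log (1 / lam j)) - FF m v) := by ring
        have h5 : ‖FF m v - FF 1 v‖ ≤ ‖TT (a j) (g + v / Real.log (1 / lam j)) - FF 1 v‖ +
            ‖TT (a j) (g + v / Real.log (1 / lam j)) - FF m v‖ := by
          rw [e]; exact norm_sub_le _ _
        have h6 := norm_nonneg (FF m v - FF 1 v)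
        nlinarith [sq_nonneg (‖TT (a j) (g + v / Real.log (1 / lam j)) - FF 1 v‖ -
            ‖TT (a j) (g + v / Real.log (1 / lam j)) - FF m v‖)]
      have h7 : ∫ v in (-R)..R, ‖FF m v - FF 1 v‖ ^ 2 ≤ 0 := ge_of_tendsto' h3 h4
      have h8 : 0 ≤ ∫ v in (-R)..R, ‖FF m v - FF 1 v‖ ^ 2 :=
        intervalIntegral.integral_nonneg (by linarith) fun v _ => by positivity
      linarith
    have hE : ∀ v : ℝ, FF m v = FF 1 v := by
      intro v
      by_contra hne
      have hcont : Continuous (fun v => ‖FF m v - FF 1 v‖ ^ 2) := (((hc m).sub (hc 1)).norm.pow 2)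
      have hR : 0 < |v| + 1 := by positivity
      have h9 : 0 < ∫ v in (-(|v| + 1))..(|v| + 1), ‖FF m v - FF 1 v‖ ^ 2 := by
        refine intervalIntegral.integral_pos (by linarith) hcont.continuousOn (fun x _ => by positivity)
          ⟨v, ⟨by linarith [neg_abs_le v], by linarith [le_abs_self v]⟩, ?_⟩
        have : FF m v - FF 1 v ≠ 0 := sub_ne_zero.2 hne
        positivity
      rw [key _ hR] at h9
      exact lt_irrefl _ h9
    have h10 := (hFFB m).2.2.2
    simp only [hE] at h10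
    rw [(hFFB 1).2.2.2] at h10
    have h11 : (m : ℝ) ^ 2 = 1 := by rw [← h10]; norm_num
    have h12 : (m : ℝ) = 1 := by
      have h13 : (0 : ℝ) ≤ m := Nat.cast_nonneg m
      nlinarith
    exact_mod_cast h12

end Pool.Agent.Q260.OE
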