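import Pool.Agent.Q260.GM.Zl3
import Pool.Agent.Q260.OE.Stm
import Pool.Agent.Q286.BD.Fin
import Pool.Agent.Q38.OE.CR3

set_option autoImplicit false

/-!
# Project OE, job CR2: partial fractions of the logarithmic derivative near the critical line
-/

namespace Pool.Agent.Q260.OE

open Complex MeasureTheory Filter Topology Set
open Pool.Agent.Q286.BD (cl mz cl_re cl_im norm_cl_sq eqv mz_pos)
open Pool.Agent.Y23 (Zt mu zsummable zsum_le Lg one_le_Lg ZZ YL cjZ mu_conj)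
open Pool.Agent.Q260.GM (hk_half hk_summ pfR zt_re zt_im inv_diff LD_eq YL_norm sx)
open Pool.Agent.Q260.LF (hk ZZ_right)
open Pool.Agent.Q38.OE (mm mm_nonneg near_sum near_fin)
open scoped ComplexConjugate

/-- the difference of two simple fractions -/
noncomputable def AA (x u : ℝ) : ℂ := 1 / (⟨x, u⟩ : ℂ) - 1 / (⟨1, u⟩ : ℂ)

lemma mk_ne {x : ℝ} (hx : 0 < x) (u : ℝ) : (⟨x, u⟩ : ℂ) ≠ 0 := by
  intro h
  have := congrArg Complex.re h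
  simp at this
  exact hx.ne' this

lemma AA_summ {x : ℝ} (hx : 0 < x) (h1 : x ≤ 1) (t : ℝ) :
    Summable (fun ρ : Zt => (mu ρ : ℂ) * AA x (t - (ρ : ℂ).im)) := by
  refine Summable.of_norm_bounded ((zsummable t).mul_left (1 / x)) fun ρ => ?_
  rw [norm_mul, Complex.norm_natCast]
  have h := inv_diff hx h1 (t - (ρ : ℂ).im)
  calc (mu ρ : ℝ) * ‖AA x (t - (ρ : ℂ).im)‖ ≤ (mu ρ : ℝ) * (1 / x * (1 / (1 + (t - (ρ : ℂ).im) ^ 2))) :=
        mul_le_mul_of_nonneg_left h (Nat.cast_nonneg _)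
    _ = _ := by rw [← neg_sub t, neg_sq]; ring

lemma AA_conj (x t : ℝ) : ∑' ρ : Zt, (mu ρ : ℂ) * AA x (t + (ρ : ℂ).im) =
    ∑' ρ : Zt, (mu ρ : ℂ) * AA x (t - (ρ : ℂ).im) := by
  rw [← cjZ.tsum_eq]
  refine tsum_congr fun ρ => ?_
  have k1 : ((cjZ ρ : Zt) : ℂ) = conj (ρ : ℂ) := rfl
  rw [k1, Complex.conj_im, mu_conj ρ.2, ← sub_eq_add_neg]

lemma AA_summ' {x : ℝ} (hx : 0 < x) (h1 : x ≤ 1) (t : ℝ) :
    Summable (fun ρ : Zt => (mu ρ : ℂ) * AA x (t + (ρ : ℂ).im)) := by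
  rw [← cjZ.summable_iff]
  refine (AA_summ hx h1 t).congr fun ρ => ?_
  have k1 : ((cjZ ρ : Zt) : ℂ) = conj (ρ : ℂ) := rfl
  show (mu (ρ : ℂ) : ℂ) * AA x (t - (ρ : ℂ).im) = (mu ((cjZ ρ : Zt) : ℂ) : ℂ) * AA x (t + ((cjZ ρ : Zt) : ℂ).im)
  rw [k1, Complex.conj_im, mu_conj ρ.2, ← sub_eq_add_neg]

lemma ZZ_sub (hRH : RiemannHypothesis) {x : ℝ} (hx : 0 < x) (h1 : x ≤ 1) (t : ℝ) :
    ZZ ⟨x, t⟩ - ZZ ⟨1, t⟩ = ∑' ρ : Zt, (mu ρ : ℂ) * AA x (t - (ρ : ℂ).im) := by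
  have hz : 0 < (⟨x, t⟩ : ℂ).re := hx
  have hz1 : 0 < (⟨1, t⟩ : ℂ).re := one_pos
  have s1 := (hk_summ hRH hz).of_norm
  have s2 := (hk_summ hRH hz1).of_norm
  rw [pfR hRH hz, pfR hRH hz1, ← s1.tsum_sub s2]
  have e : ∀ ρ : Zt, (mu ρ : ℂ) * hk ⟨x, t⟩ ((ρ : ℂ) - 1 / 2) - (mu ρ : ℂ) * hk ⟨1, t⟩ ((ρ : ℂ) - 1 / 2) =
      ((mu ρ : ℂ) * AA x (t - (ρ : ℂ).im) + (mu ρ : ℂ) * AA x (t + (ρ : ℂ).im)) / 2 := by
    intro ρ
    have hr := zt_re hRH ρ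
    have hi := zt_im ρ
    set ζ := (ρ : ℂ) - 1 / 2 with hζ
    have a1 : (⟨x, t⟩ : ℂ) - ζ = ⟨x, t - ζ.im⟩ := by apply Complex.ext <;> simp [hr]
    have a2 : (⟨x, t⟩ : ℂ) + ζ = ⟨x, t + ζ.im⟩ := by apply Complex.ext <;> simp [hr]
    have a3 : (⟨1, t⟩ : ℂ) - ζ = ⟨1, t - ζ.im⟩ := by apply Complex.ext <;> simp [hr]
    have a4 : (⟨1, t⟩ : ℂ) + ζ = ⟨1, t + ζ.im⟩ := by apply Complex.ext <;> simp [hr]
    rw [hk_half (by rw [a1]; exact mk_ne hx _) (by rw [a2]; exact mk_ne hx _),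
      hk_half (by rw [a3]; exact mk_ne one_pos _) (by rw [a4]; exact mk_ne one_pos _), a1, a2, a3, a4, ← hi]
    unfold AA
    ring
  rw [tsum_congr e, tsum_div_const, (AA_summ hx h1 t).tsum_add (AA_summ' hx h1 t), AA_conj]
  ring

/-- the same as a sum over the ordinates -/
lemma ZZ_sub_go (hRH : RiemannHypothesis) {x : ℝ} (hx : 0 < x) (h1 : x ≤ 1) (t : ℝ) :
    Summable (fun g : Go => ((mm g : ℝ) : ℂ) * AA x (t - (g : ℝ))) ∧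
    ZZ ⟨x, t⟩ - ZZ ⟨1, t⟩ = ∑' g : Go, ((mm g : ℝ) : ℂ) * AA x (t - (g : ℝ)) := by
  have e : (fun g : Go => ((mm g : ℝ) : ℂ) * AA x (t - (g : ℝ))) =
      (fun ρ : Zt => (mu ρ : ℂ) * AA x (t - (ρ : ℂ).im)) ∘ (eqv hRH) := by
    funext g
    simp only [Function.comp_apply]
    have h1 : ((eqv hRH g : Zt) : ℂ) = cl g := rfl
    rw [h1, cl_im]
    unfold mm
    rw [Complex.ofReal_natCast]
    rfl
  constructor
  · rw [e]
    exact (eqv hRH).summable_iff.2 (AA_summ hx h1 t)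
  · rw [ZZ_sub hRH hx h1 t, e]
    exact ((eqv hRH).tsum_eq (fun ρ : Zt => (mu ρ : ℂ) * AA x (t - (ρ : ℂ).im))).symm

lemma nsq (x u : ℝ) : ‖(⟨x, u⟩ : ℂ)‖ ^ 2 = x ^ 2 + u ^ 2 := by
  rw [← Complex.normSq_eq_norm_sq, Complex.normSq_apply]; ring

lemma AA_far {x : ℝ} (hx : 0 < x) (h1 : x ≤ 1) {u : ℝ} (hu : 1 < |u|) : ‖AA x u‖ ≤ 2 * (1 / (1 + u ^ 2)) := by
  have n1 := mk_ne hx u
  have n2 := mk_ne one_pos u
  unfold AA
  rw [div_sub_div _ _ n1 n2, norm_div, norm_mul]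
  have e : (1 * (⟨1, u⟩ : ℂ) - (⟨x, u⟩ : ℂ) * 1) = ((1 - x : ℝ) : ℂ) := by
    apply Complex.ext <;> simp
  rw [e, Complex.norm_real, Real.norm_eq_abs, abs_of_nonneg (by linarith)]
  have q1 := nsq x u
  have q2 := nsq 1 u
  have hu2 : 1 < u ^ 2 := by
    rw [← sq_abs]
    nlinarith
  have h3 : ((1 + u ^ 2) / 2) ^ 2 ≤ (‖(⟨x, u⟩ : ℂ)‖ * ‖(⟨1, u⟩ : ℂ)‖) ^ 2 := by
    rw [mul_pow, q1, q2]
    nlinarith [mul_nonneg (sq_nonneg x) (sq_nonneg u), sq_nonneg x]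
  have h4 := (pow_le_pow_iff_left₀ (by positivity) (by positivity) two_ne_zero).1 h3
  have h5 : 0 < 1 + u ^ 2 := by positivity
  rw [mul_one_div, div_le_div_iff₀ (by linarith) h5]
  nlinarith

lemma one_near (u : ℝ) (hu : |u| ≤ 1) : ‖1 / (⟨1, u⟩ : ℂ)‖ ≤ 2 * (1 / (1 + u ^ 2)) := by
  have n2 := mk_ne one_pos u
  have q2 := nsq 1 u
  have hu2 : u ^ 2 ≤ 1 := by
    rw [← sq_abs]
    exact pow_le_one₀ (abs_nonneg _) hu
  have h1 : 1 ≤ ‖(⟨1, u⟩ : ℂ)‖ := by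
    by_contra hcon
    push Not at hcon
    nlinarith [norm_nonneg (⟨1, u⟩ : ℂ), sq_nonneg u]
  rw [norm_div, norm_one]
  have h2 : 1 / ‖(⟨1, u⟩ : ℂ)‖ ≤ 1 := by
    rw [div_le_one (by linarith)]
    exact h1
  have h3 : 1 / 2 ≤ 1 / (1 + u ^ 2) := one_div_le_one_div_of_le (by positivity) (by linarith)
  linarith

lemma Lo_le2 (t : ℝ) : Pool.Agent.Q38.OE.Lo t ≤ 2 * Real.log (|t| + 3) := by
  have h0 := abs_nonneg t
  have h : 2 * Real.log (|t| + 3) = Real.log ((|t| + 3) ^ 2) := by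
    rw [Real.log_pow]; norm_num
  rw [h]
  unfold Pool.Agent.Q38.OE.Lo
  exact Real.log_le_log (by positivity) (by nlinarith)

/-- the partial fractions -/
theorem ZZ_near (hRH : RiemannHypothesis) : ∃ C : ℝ, 0 < C ∧ ∀ x : ℝ, 0 < x → x ≤ 1 → ∀ t : ℝ,
    ∀ T : Finset Go, (∀ g : Go, g ∈ T ↔ |(g : ℝ) - t| ≤ 1) →
    ‖ZZ ⟨x, t⟩ - ∑ g ∈ T, ((mm g : ℝ) : ℂ) * (1 / (⟨x, t - (g : ℝ)⟩ : ℂ))‖ ≤ C * Real.log (|t| + 3) := by
  classical
  obtain ⟨K0, hK0, hKs0⟩ := near_sum hRH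
  obtain ⟨K, hK, hKs⟩ : ∃ K : ℝ, 0 < K ∧ ∀ t : ℝ, Summable (fun g : Go => mm g * (1 / (1 + ((g : ℝ) - t) ^ 2))) ∧
      ∑' g : Go, mm g * (1 / (1 + ((g : ℝ) - t) ^ 2)) ≤ K * Real.log (|t| + 3) := by
    refine ⟨2 * K0, by positivity, fun t => ⟨(hKs0 t).1, (hKs0 t).2.trans ?_⟩⟩
    have h2 := Lo_le2 t
    nlinarith
  obtain ⟨C, hC, hR⟩ := ZZ_right
  refine ⟨2 * K + 2 * C, by positivity, fun x hx h1 t T hT => ?_⟩
  obtain ⟨hs, he⟩ := ZZ_sub_go hRH hx h1 t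
  have hL : Lg t = Real.log (|t| + 3) := by
    unfold Lg
    rw [add_comm]
  have hL1 := one_le_Lg t
  set F : Go → ℂ := fun g => if g ∈ T then ((mm g : ℝ) : ℂ) * (1 / (⟨x, t - (g : ℝ)⟩ : ℂ)) else 0 with hF
  have hFs : HasSum F (∑ g ∈ T, ((mm g : ℝ) : ℂ) * (1 / (⟨x, t - (g : ℝ)⟩ : ℂ))) := by
    have h : HasSum F (∑ g ∈ T, F g) :=
      hasSum_sum_of_ne_finset_zero (fun g hg => by simp only [hF]; rw [if_neg hg])
    have e1 : ∑ g ∈ T, F g = ∑ g ∈ T, ((mm g : ℝ) : ℂ) * (1 / (⟨x, t - (g : ℝ)⟩ : ℂ)) :=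
      Finset.sum_congr rfl fun g hg => by simp only [hF]; rw [if_pos hg]
    rwa [e1] at h
  have e2 : ZZ ⟨x, t⟩ - ZZ ⟨1, t⟩ - ∑ g ∈ T, ((mm g : ℝ) : ℂ) * (1 / (⟨x, t - (g : ℝ)⟩ : ℂ)) =
      ∑' g : Go, (((mm g : ℝ) : ℂ) * AA x (t - (g : ℝ)) - F g) := by
    rw [he, hs.tsum_sub hFs.summable, hFs.tsum_eq]
  have hb : ∀ g : Go, ‖((mm g : ℝ) : ℂ) * AA x (t - (g : ℝ)) - F g‖ ≤
      2 * (mm g * (1 / (1 + ((g : ℝ) - t) ^ 2))) := by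
    intro g
    have hm := mm_nonneg g
    have e3 : ((g : ℝ) - t) ^ 2 = (t - (g : ℝ)) ^ 2 := by ring
    rw [e3]
    by_cases hg : g ∈ T
    · have h2 := (hT g).1 hg
      rw [abs_sub_comm] at h2
      have e4 : ((mm g : ℝ) : ℂ) * AA x (t - (g : ℝ)) - F g = -(((mm g : ℝ) : ℂ) * (1 / (⟨1, t - (g : ℝ)⟩ : ℂ))) := by
        simp only [hF]
        rw [if_pos hg]
        unfold AA
        ring
      rw [e4, norm_neg, norm_mul, Complex.norm_real, Real.norm_of_nonneg hm]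
      calc mm g * ‖1 / (⟨1, t - (g : ℝ)⟩ : ℂ)‖ ≤ mm g * (2 * (1 / (1 + (t - (g : ℝ)) ^ 2))) :=
            mul_le_mul_of_nonneg_left (one_near _ h2) hm
        _ = _ := by ring
    · have h2 : 1 < |t - (g : ℝ)| := by
        by_contra hcon
        push Not at hcon
        rw [abs_sub_comm] at hcon
        exact hg ((hT g).2 hcon)
      have e4 : F g = 0 := by
        simp only [hF]
        rw [if_neg hg]
      rw [e4, sub_zero, norm_mul, Complex.norm_real, Real.norm_of_nonneg hm]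
      calc mm g * ‖AA x (t - (g : ℝ))‖ ≤ mm g * (2 * (1 / (1 + (t - (g : ℝ)) ^ 2))) :=
            mul_le_mul_of_nonneg_left (AA_far hx h1 h2) hm
        _ = _ := by ring
  have h3 := tsum_of_norm_bounded ((hKs t).1.mul_left 2).hasSum hb
  rw [← e2, tsum_mul_left] at h3
  have h4 := (hKs t).2
  have h7 := hR ⟨1, t⟩ le_rfl
  have h8 : Real.log (2 + ‖(⟨1, t⟩ : ℂ)‖) ≤ Real.log (|t| + 3) := by
    apply Real.log_le_log (by positivity)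
    have := Complex.norm_le_abs_re_add_abs_im (⟨1, t⟩ : ℂ)
    simp only [abs_one] at this
    linarith
  rw [hL] at hL1
  have h9 : ‖ZZ ⟨1, t⟩‖ ≤ C * (2 * Real.log (|t| + 3)) := h7.trans (mul_le_mul_of_nonneg_left (by linarith) hC.le)
  have h10 : ZZ ⟨x, t⟩ - ∑ g ∈ T, ((mm g : ℝ) : ℂ) * (1 / (⟨x, t - (g : ℝ)⟩ : ℂ)) =
      (ZZ ⟨x, t⟩ - ZZ ⟨1, t⟩ - ∑ g ∈ T, ((mm g : ℝ) : ℂ) * (1 / (⟨x, t - (g : ℝ)⟩ : ℂ))) + ZZ ⟨1, t⟩ := by ring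
  rw [h10]
  refine (norm_add_le _ _).trans ?_
  calc _ ≤ 2 * (K * Real.log (|t| + 3)) + C * (2 * Real.log (|t| + 3)) :=
        add_le_add (h3.trans (mul_le_mul_of_nonneg_left h4 two_pos.le)) h9
    _ = _ := by ring

/-- **job CR2** -/
theorem t_CR2 : S_CR2 := by
  classical
  intro hRH S hS
  obtain ⟨C, hC, h⟩ := ZZ_near hRH
  set MS : ℝ := ∑ g ∈ S, (mz (cl g) : ℝ) with hMS
  have hMS0 : 0 ≤ MS := Finset.sum_nonneg fun g _ => Nat.cast_nonneg _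
  refine ⟨C + 15 + MS, by positivity, fun δ t hδ h1 => ?_⟩
  have hs : (((1 / 2 + δ : ℝ) : ℂ) + t * I) = sx δ t := rfl
  have hfin := near_fin hRH t
  obtain ⟨T, hT⟩ : ∃ T : Finset Go, ∀ g, g ∈ T ↔ |(g : ℝ) - t| ≤ 1 := ⟨hfin.toFinset, fun g => by
    rw [hfin.mem_toFinset]
    rfl⟩
  have hz := h δ hδ (by linarith) t T hT
  have hy := YL_norm hδ h1 t
  have hL : Lg t = Real.log (|t| + 3) := by
    unfold Lg
    rw [add_comm]
  have hL1 := one_le_Lg t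
  rw [hL] at hy hL1
  set f : ℝ → ℂ := fun g => (mz (cl g) : ℂ) / ((((1 / 2 + δ : ℝ) : ℂ) + t * I) - cl g) with hf
  have hfe : ∀ g : ℝ, f g = (mz (cl g) : ℂ) * (1 / (⟨δ, t - g⟩ : ℂ)) := by
    intro g
    have e1 : (((1 / 2 + δ : ℝ) : ℂ) + t * I) - cl g = ⟨δ, t - g⟩ := by
      apply Complex.ext
      · simp [cl_re]
      · simp [cl_im]
    simp only [hf]
    rw [e1, mul_one_div]
  have hfn : ∀ g : ℝ, ‖f g‖ = (mz (cl g) : ℝ) / ‖(δ : ℂ) + (t - g) * I‖ := by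
    intro g
    have e1 : (δ : ℂ) + (t - g) * I = ⟨δ, t - g⟩ := by
      apply Complex.ext <;> simp
    rw [hfe, e1, mul_one_div, norm_div, Complex.norm_natCast]
  set T' : Finset ℝ := T.map (Function.Embedding.subtype _) with hT'
  have hsumT : ∑ g ∈ T, ((mm g : ℝ) : ℂ) * (1 / (⟨δ, t - (g : ℝ)⟩ : ℂ)) = ∑ g ∈ T', f g := by
    rw [hT', Finset.sum_map]
    refine Finset.sum_congr rfl fun g _ => ?_
    rw [hfe]
    unfold mm
    rw [Complex.ofReal_natCast]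
    rfl
  rw [hsumT] at hz
  have hNz : Nz S δ t = ∑ g ∈ T' \ S, ‖f g‖ := by
    have e1 : T' \ S = (T.filter (fun g : Go => (g : ℝ) ∉ S)).map (Function.Embedding.subtype _) := by
      ext g
      simp only [hT', Finset.mem_sdiff, Finset.mem_map, Finset.mem_filter, Function.Embedding.subtype_apply]
      constructor
      · rintro ⟨⟨g', hg', rfl⟩, hn⟩
        exact ⟨g', ⟨hg', hn⟩, rfl⟩
      · rintro ⟨g', ⟨hg', hn⟩, rfl⟩
        exact ⟨⟨g', hg', rfl⟩, hn⟩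
    rw [e1, Finset.sum_map]
    unfold Nz
    rw [tsum_eq_sum (s := T.filter (fun g : Go => (g : ℝ) ∉ S))]
    · refine Finset.sum_congr rfl fun g hg => ?_
      rw [Finset.mem_filter] at hg
      rw [if_neg, Function.Embedding.subtype_apply, hfn]
      rintro (h2 | h2)
      · exact hg.2 h2
      · linarith [(hT g).1 hg.1]
    · intro g hg
      rw [Finset.mem_filter, not_and, not_not] at hg
      rw [if_pos]
      by_cases h2 : |(g : ℝ) - t| ≤ 1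
      · exact Or.inl (hg ((hT g).2 h2))
      · exact Or.inr (not_le.1 h2)
  rw [hs, LD_eq hRH hδ h1 t]
  have e5 : -(ZZ ⟨δ, t⟩ - YL ⟨δ, t⟩) + ∑ g ∈ S, f g =
      YL ⟨δ, t⟩ - (ZZ ⟨δ, t⟩ - ∑ g ∈ T', f g) + (∑ g ∈ S \ T', f g - ∑ g ∈ T' \ S, f g) := by
    rw [Finset.sum_sdiff_sub_sum_sdiff]
    ring
  rw [e5]
  have b1 : ‖∑ g ∈ S \ T', f g‖ ≤ MS := by
    refine (norm_sum_le _ _).trans ?_
    calc ∑ g ∈ S \ T', ‖f g‖ ≤ ∑ g ∈ S \ T', (mz (cl g) : ℝ) := by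
          refine Finset.sum_le_sum fun g hg => ?_
          rw [Finset.mem_sdiff] at hg
          have h2 : 1 < |g - t| := by
            by_contra hcon
            push Not at hcon
            apply hg.2
            rw [hT', Finset.mem_map]
            exact ⟨⟨g, hS g hg.1⟩, (hT _).2 hcon, rfl⟩
          rw [hfn]
          apply div_le_self (Nat.cast_nonneg _)
          have e1 : ((δ : ℂ) + (t - g) * I).im = t - g := by simp
          have h3 := Complex.abs_im_le_norm ((δ : ℂ) + (t - g) * I)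
          rw [e1, abs_sub_comm] at h3
          linarith
      _ ≤ MS := Finset.sum_le_sum_of_subset_of_nonneg Finset.sdiff_subset fun g _ _ => Nat.cast_nonneg _
  have b2 : ‖∑ g ∈ T' \ S, f g‖ ≤ Nz S δ t := by
    rw [hNz]
    exact norm_sum_le _ _
  have c1 := norm_add_le (YL ⟨δ, t⟩ - (ZZ ⟨δ, t⟩ - ∑ g ∈ T', f g)) (∑ g ∈ S \ T', f g - ∑ g ∈ T' \ S, f g)
  have c2 := norm_sub_le (YL ⟨δ, t⟩) (ZZ ⟨δ, t⟩ - ∑ g ∈ T', f g)
  have c3 := norm_sub_le (∑ g ∈ S \ T', f g) (∑ g ∈ T' \ S, f g)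
  have c4 : MS ≤ MS * Real.log (|t| + 3) := le_mul_of_one_le_right hMS0 hL1
  linarith

end Pool.Agent.Q260.OE
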