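import Pool.Agent.Q260.OE.Stm4

set_option autoImplicit false

/-!
# Project OE: universal laws for all approximations of the right order, and the law in phase space
-/

namespace Pool.Agent.Q260.OE

open Complex MeasureTheory Filter Topology Set
open Pool.Agent.Q286.BD (cl mz dif JJ difR JR)
open Pool.Agent.Q260.GM (ph L2psi)

/-- families with an error of the right order (not necessarily optimal) -/
structure Good (Lf : ℕ → ℝ) (af : ℕ → (ℝ →₀ ℝ)) : Prop where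
  tend : Tendsto Lf atTop atTop
  supp : ∀ j, ∀ θ ∈ (af j).support, Real.exp (-(Lf j)) ≤ θ ∧ θ ≤ 1
  bdd : ∃ C : ℝ, ∀ j, Lf j * JR (af j) ≤ C

/-- JOB PAI: **the scalar product of the error and the prime error is the same for all approximations of the right order.** Uses `S_TR`
(`Pool.Agent.Q286.BD.S_TR`, all polynomials; here only `p = 1`), `S_intR`, `S_XW`, `S_CR4`, `S_sum2`. **Proof** (compare `t_STR` in
`Pool/Agent/Q193/OE/STR.lean` and `pairK`, `JR_inv` of `Pool/Agent/Q210/BD`).  `L = Lf j`, `a = af j`, `D y = difR a (1/y)`, so `D (e^w) = De a w`.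
(1) For `g ∈ Go` let `K` be as in `S_TR` for `p = 1` (`mz (cl g) ≥ 1`). `pairK`: `∫_0^∞ D K dy = ∫_1^∞ K` (exactly, as the dilations are in `[e^{-L}, 1]`).
Cauchy-Schwarz: `|∫ D (K - Km)| ≤ √(∫ D²/y²) √(∫ |K-Km|² y²) ≤ √(JR a) √C`. So `∫ D Km = 1/cl g + O(1/L + √(JR a))`. With `y = e^w`:
`∫ D Km dy = ∫_0^L De a w e^{-w cl g} dw`, and since `D` is real its conjugate is `∫_0^L De a w e^{w cl g} e^{-w} dw` (`conj (cl g) = 1 - cl g`).
So `∫_0^L De ZS e^{-w} dw = ∑_{g∈S} (m/cl g) (1/conj (cl g) + O(1/L + √JR)) → ∑_{g∈S} m/(1/4+g²)` for each finite `S ⊆ Go` (`JR a ≤ C/L → 0`).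
(2) `-∫ De ph e^{-w} = ∫ De ZS e^{-w} - ∫ De (ph + ZS) e^{-w}` on `[0, L]`; Cauchy-Schwarz and CR4: the last integral is at most
`√(JR a) √(∫_0^L |ph + ZS|² e^{-w}) ≤ √(C/L) √(ε L) = √(C ε)` for `S ⊇ S0`, large `L`. (3) `∑_{g∈S} m/(1/4+g²)` tends to the series (`m ≤ m²`, `S_sum2`,
`Pool.Agent.Q286.BD.summ_line`). -/
def S_PAI : Prop := RiemannHypothesis → ∀ (Lf : ℕ → ℝ) (af : ℕ → (ℝ →₀ ℝ)), Good Lf af →
  Tendsto (fun j => -∫ w in (0 : ℝ)..(Lf j), De (af j) w * ph w * Real.exp (-w)) atTop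
    (𝓝 (∑' g : Go, (mz (cl g) : ℝ) / (1 / 4 + (g : ℝ) ^ 2)))

/-- the transform of `a D - b ph / L` restricted to the window `[u L, v L]` -/
noncomputable def WT (af : ℝ →₀ ℝ) (a b u v L t : ℝ) : ℂ :=
  ∫ w in (u * L)..(v * L), ((a * De af w - b * ph w / L : ℝ) : ℂ) * cexp (-(cl t * w))

/-- JOB PHS: **the law in phase space** (time window `[uL, vL]` and frequency window `[α, β]` together). Uses STR, CR4, FFB, PLG, LEG, XW, `S_sum2`.
**Proof**: as that of `S_FRW` (`Pool/Agent/Q96/OE/FRW.lean`), with the time window `[uL, vL]`; it is simpler, as everything is on the half line and only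
PLG is needed. `L = Lf j`, `p_g = pm (mz (cl g))`, `m_g = mz (cl g)`, `1_W` the indicator of `[uL, vL]`. For finite `S ⊆ Go`
`(a D - b ph/L) 1_W = a (D - Mo S L) 1_W + (1/L) 1_W ∑_{g∈S} (a p_g(w/L) + b m_g) e^{w cl g}/cl g - (b/L) (ph + ZS S) 1_W`. Transforms in `L²(dt)`:
first part: PLG with `h = (D - Mo) 1_W e^{-w/2}`: `L/(2π) ∫_ℝ ‖·‖² = a² L ∫_W ‖D - Mo‖² e^{-w} ≤ a² (L JR - BS S + C/√L) → a² (BB - BS S)` (STR);
third part: PLG with `h = (ph + ZS S) 1_W e^{-w/2}`: `L/(2π) ∫_ℝ ‖·‖² = (b²/L) ∫_W ‖ph + ZS S‖² e^{-w} ≤ b² ε` for `S ⊇ S0` and large `L` (CR4);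
second part: `∑_{g∈S} H_g((t-g)L)/cl g` with `H_g(s) = ∫_u^v (a p_g(x) + b m_g) e^{-ixs} dx`: continuous, `‖H_g s‖ ≤ C/(1+|s|)` (integration by parts, a
polynomial), `(1/2π) ∫ ‖H_g‖² = ∫_u^v (a p_g + b m_g)²` (PLG with `h = (a p_g + b m_g) 1_[u,v]`, `u ≥ 0`); as in FRW/FRQ:
`L/(2π) ∫_α^β ‖second‖² → ∑_{g∈S, α<g<β} (∫_u^v (a p_g + b m_g)²)/(1/4+g²)`. Triangle inequality in `L²(α, β)`, `S ↑ Go`
(`∫_u^v (a p + b m)² ≤ 2 (a²+b²) m²` by LEG, so the series converges by `S_sum2`; `BS S → BB`). -/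
def S_PHS : Prop := RiemannHypothesis → ∀ (Lf : ℕ → ℝ) (af : ℕ → (ℝ →₀ ℝ)), Fam Lf af → ∀ a b u v α β : ℝ,
  0 ≤ u → u ≤ v → v ≤ 1 → α < β → riemannZeta (cl α) ≠ 0 → riemannZeta (cl β) ≠ 0 →
  Tendsto (fun j => Lf j * (1 / (2 * Real.pi) * ∫ t in α..β, ‖WT (af j) a b u v (Lf j) t‖ ^ 2))
    atTop (𝓝 (∑' g : Go, if α < (g : ℝ) ∧ (g : ℝ) < β then
      (∫ x in u..v, (a * (pm (mz (cl g))).eval x + b * (mz (cl g) : ℝ)) ^ 2) / (1 / 4 + (g : ℝ) ^ 2) else 0))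

end Pool.Agent.Q260.OE
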