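import Pool.Agent.Q260.OE.Fin4
import Pool.Agent.Q286.BD.All
import Pool.Agent.Q296.GM.Rh
import Pool.Agent.Q164.OE.Leg
import Pool.Agent.Q210.OE.Ffb
import Pool.Agent.Q210.OE.Xw
import Pool.Agent.Q193.OE.STR
import Pool.Agent.Q137.OE.MOD
import Pool.Agent.Q211.OE.PLG
import Pool.Agent.Q237.OE.CR1
import Pool.Agent.Q260.OE.CR2
import Pool.Agent.Q38.OE.CR3
import Pool.Agent.Q237.OE.CR4
import Pool.Agent.Q123.OE.Qf
import Pool.Agent.Q237.OE.COR1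
import Pool.Agent.Q229.OE.PL
import Pool.Agent.Q123.OE.Frq
import Pool.Agent.Q198.OE.PRO
import Pool.Agent.Q211.OE.NT
import Pool.Agent.Q198.OE.BST
import Pool.Agent.Q229.OE.COE
import Pool.Agent.Q229.OE.NR1
import Pool.Agent.Q150.OE.NR2
import Pool.Agent.Q211.OE.NR3
import Pool.Agent.Q153.OE.NR4
import Pool.Agent.Q280.OE.POS
import Pool.Agent.Q164.OE.Coa
import Pool.Agent.Q260.OE.Stm5
import Pool.Agent.Q149.OE.PAI
import Pool.Agent.Q149.OE.PHS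

set_option autoImplicit false

/-!
# Project OE: all statements proved
-/

namespace Pool.Agent.Q260.OE

open Pool.Agent.Q286.BD (S_up S_low S_sum2)

theorem up : S_up := Pool.Agent.Q286.BD.up
theorem low : S_low := Pool.Agent.Q286.BD.low
theorem sum2 : S_sum2 := Pool.Agent.Q286.BD.sum2
theorem leg : S_LEG := Pool.Agent.Q164.OE.leg
theorem ffb : S_FFB := Pool.Agent.Q210.OE.t_FFB leg
theorem xw : S_XW := Pool.Agent.Q210.OE.t_XW
theorem str : S_STR :=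
  Pool.Agent.Q193.OE.t_STR leg Pool.Agent.Q286.BD.tR Pool.Agent.Q286.BD.tN Pool.Agent.Q286.BD.intR
theorem mod : S_MOD := Pool.Agent.Q137.OE.t_MOD
theorem plg : S_PLG := Pool.Agent.Q211.OE.t_PLG
theorem cr1 : S_CR1 := Pool.Agent.Q237.OE.CR1.t_CR1
theorem cr2 : S_CR2 := Pool.Agent.Q260.OE.t_CR2
theorem cr3 : S_CR3 := Pool.Agent.Q38.OE.t_CR3 Pool.Agent.Q296.GM.L2_of_rh cr1 cr2
theorem cr4 : S_CR4 := Pool.Agent.Q237.OE.CR4.t_CR4 Pool.Agent.Q296.GM.L2_of_rh cr1 cr3 plg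
theorem qf : S_QF := Pool.Agent.Q123.OE.qf str mod cr4 leg sum2
theorem cor1 : S_COR1 := Pool.Agent.Q237.OE.COR1.t_COR1 qf leg xw
theorem pl : S_PL := Pool.Agent.Q229.OE.t_PL
theorem frq : S_FRQ := Pool.Agent.Q123.OE.frq str pl ffb sum2
theorem pro : S_PRO := Pool.Agent.Q198.OE.t_PRO str pl ffb sum2
theorem nt' : S_NT := Pool.Agent.Q211.OE.t_NT
theorem bst : S_BST := Pool.Agent.Q198.OE.t_BST
theorem coe : S_COE := Pool.Agent.Q229.OE.t_COE Pool.Agent.Q286.BD.coef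
theorem nr1 : S_NR1 := Pool.Agent.Q229.OE.t_NR1 Pool.Agent.Q286.BD.nrh bst xw nt'
theorem nr2 : S_NR2 := Pool.Agent.Q150.OE.t_NR2 Pool.Agent.Q286.BD.nrh Pool.Agent.Q286.BD.intR nt' bst xw
theorem nr3 : S_NR3 := Pool.Agent.Q211.OE.t_NR3 Pool.Agent.Q286.BD.nrh Pool.Agent.Q286.BD.coef bst
theorem nr4 : S_NR4 := Pool.Agent.Q153.OE.t_NR4 Pool.Agent.Q286.BD.nrh Pool.Agent.Q286.BD.mel Pool.Agent.Q286.BD.cnt
theorem pos : S_POS := Pool.Agent.Q280.OE.t_POS Pool.Agent.Q286.BD.const sum2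
theorem coa : S_COA := Pool.Agent.Q164.OE.coa
theorem pai : S_PAI := Pool.Agent.Q149.OE.t_PAI Pool.Agent.Q286.BD.tR Pool.Agent.Q286.BD.intR xw cr4 sum2
theorem phs : S_PHS := Pool.Agent.Q149.OE.t_PHS str cr4 plg leg sum2

end Pool.Agent.Q260.OE
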