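import Pool.Agent.Q260.OE.Stm2
import Pool.Agent.Q286.BD.Fin

set_option autoImplicit false

/-!
# Project OE: assembly in the variable `w = log (1/x)`
-/

namespace Pool.Agent.Q260.OE

open Complex MeasureTheory Filter Topology Set
open Pool.Agent.Q286.BD (cl mz dif JJ difR JR)
open Pool.Agent.Q260.GM (ph L2psi)

/-- `log N` times the squared distance of the error to the prime error -/
noncomputable def gw (N : ℕ) (a : ℕ → ℝ) : ℝ :=
  Real.log N * ∫ w in (0 : ℝ)..(Real.log N), (Dn N a w + ph w / Real.log N) ^ 2 * Real.exp (-w)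

/-- the share of the error on `w < u log N` -/
noncomputable def sw (N : ℕ) (a : ℕ → ℝ) (u : ℝ) : ℝ :=
  (∫ w in Iio (u * Real.log N), Dn N a w ^ 2 * Real.exp (-w)) / JJ N a

/-- the pairing with the prime error -/
noncomputable def pw (N : ℕ) (a : ℕ → ℝ) : ℝ := -∫ w in (0 : ℝ)..(Real.log N), Dn N a w * ph w * Real.exp (-w)

/-- the share of the frequencies in `[α, β]` -/
noncomputable def fw (N : ℕ) (a : ℕ → ℝ) (α β : ℝ) : ℝ :=
  1 / (2 * Real.pi) * (∫ t in α..β, ‖Tn N a t‖ ^ 2 / (1 / 4 + t ^ 2)) / JJ N a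

/-- asymptotically optimal -/
def Opt (a : ℕ → ℕ → ℝ) : Prop := Tendsto (fun N : ℕ => JJ N (a N) * Real.log N) atTop (𝓝 BB)

/-- all zeros on the line are simple -/
def Simp : Prop := ∀ g : Go, mz (cl g) = 1

noncomputable def D2 : ℝ := ∑' g : Go, 2 * (mz (cl g) : ℝ) * ((mz (cl g) : ℝ) - 1) / (1 / 4 + (g : ℝ) ^ 2)

noncomputable def PU (u : ℝ) : ℝ :=
  ∑' g : Go, (∫ x in (0 : ℝ)..u, (pm (mz (cl g))).eval x ^ 2) / (1 / 4 + (g : ℝ) ^ 2)

theorem log_top : Tendsto (fun N : ℕ => Real.log N) atTop atTop :=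
  Real.tendsto_log_atTop.comp tendsto_natCast_atTop_atTop

theorem fam_of (hNT : S_NT) {a : ℕ → ℕ → ℝ} (ho : Opt a) : Fam (fun N : ℕ => Real.log N) (fun N => nt N (a N)) where
  tend := log_top
  supp := by
    intro N θ hθ
    obtain ⟨h1, h2⟩ := (hNT N (a N)).2.2.2.2 θ hθ
    refine ⟨?_, h2⟩
    rcases Nat.eq_zero_or_pos N with h0 | h0
    · subst h0
      simp [nt] at hθ
    · have : (0 : ℝ) < N := by exact_mod_cast h0
      rw [Real.exp_neg, Real.exp_log this, ← one_div]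
      exact h1
  opt := by
    refine Tendsto.congr (fun N => ?_) ho
    rw [(hNT N (a N)).2.1, mul_comm]

section laws

variable (hNT : S_NT) (hCOR : S_COR1) (hPOS : S_POS) (hRH : RiemannHypothesis)
include hNT

theorem De_nt (N : ℕ) (a : ℕ → ℝ) : De (nt N a) = Dn N a := (hNT N a).2.2.1

theorem TT_nt (N : ℕ) (a : ℕ → ℝ) : TT (nt N a) = Tn N a := funext (hNT N a).2.2.2.1

include hCOR hRH

theorem gw_lim {a : ℕ → ℕ → ℝ} (ho : Opt a) : Tendsto (fun N => gw N (a N)) atTop (𝓝 D2) := by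
  have h := (hCOR hRH _ _ (fam_of hNT ho)).1
  simp only [De_nt hNT] at h
  exact h

theorem pw_lim {a : ℕ → ℕ → ℝ} (ho : Opt a) : Tendsto (fun N => pw N (a N)) atTop
    (𝓝 (∑' g : Go, (mz (cl g) : ℝ) / (1 / 4 + (g : ℝ) ^ 2))) := by
  have h := (hCOR hRH _ _ (fam_of hNT ho)).2.1
  simp only [De_nt hNT] at h
  exact h

include hPOS

theorem sw_lim {a : ℕ → ℕ → ℝ} (ho : Opt a) {u : ℝ} (h0 : 0 ≤ u) (h1 : u ≤ 1) :
    Tendsto (fun N => sw N (a N) u) atTop (𝓝 (PU u / BB)) := by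
  have h := (hCOR hRH _ _ (fam_of hNT ho)).2.2.1 u h0 h1
  simp only [De_nt hNT] at h
  have h2 := h.div ho ((hPOS.2 hRH).1.ne')
  refine Tendsto.congr' ?_ h2
  filter_upwards [log_top.eventually_gt_atTop 0] with N hN
  rw [Pi.div_apply]
  unfold sw
  rw [mul_comm (JJ N (a N)), mul_div_mul_left _ _ hN.ne']

end laws

theorem fw_lim (hNT : S_NT) (hFRQ : S_FRQ) (hPOS : S_POS) (hRH : RiemannHypothesis) {a : ℕ → ℕ → ℝ} (ho : Opt a)
    {α β : ℝ} (hαβ : α < β) (hα : riemannZeta (cl α) ≠ 0) (hβ : riemannZeta (cl β) ≠ 0) :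
    Tendsto (fun N => fw N (a N) α β) atTop
      (𝓝 ((∑' g : Go, if α < (g : ℝ) ∧ (g : ℝ) < β then (mz (cl g) : ℝ) ^ 2 / (1 / 4 + (g : ℝ) ^ 2) else 0) / BB)) := by
  have h := hFRQ hRH _ _ (fam_of hNT ho) α β hαβ hα hβ
  simp only [TT_nt hNT] at h
  have h2 := h.div ho ((hPOS.2 hRH).1.ne')
  refine Tendsto.congr' ?_ h2
  filter_upwards [log_top.eventually_gt_atTop 0] with N hN
  rw [Pi.div_apply]
  unfold fw
  rw [mul_comm (JJ N (a N)), mul_div_mul_left _ _ hN.ne']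

theorem coef_lim (hCOE : S_COE) {a : ℕ → ℕ → ℝ} (ho : Opt a) {n : ℕ} (hn : 1 ≤ n) :
    Tendsto (fun N => a N n) atTop (𝓝 (-((ArithmeticFunction.moebius n : ℤ) : ℝ))) := by
  obtain ⟨C, hC, h⟩ := hCOE n hn
  have h1 : Tendsto (fun N : ℕ => JJ N (a N)) atTop (𝓝 0) := by
    have h2 := ho.div_atTop log_top
    refine Tendsto.congr' ?_ h2
    filter_upwards [log_top.eventually_gt_atTop 0] with N hN
    rw [mul_div_cancel_right₀ _ hN.ne']
  have h3 : Tendsto (fun N : ℕ => C * Real.sqrt (JJ N (a N))) atTop (𝓝 0) := by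
    have := (Real.continuous_sqrt.tendsto 0).comp h1
    rw [Real.sqrt_zero] at this
    simpa using this.const_mul C
  have h4 : Tendsto (fun N : ℕ => a N n + ((ArithmeticFunction.moebius n : ℤ) : ℝ)) atTop (𝓝 0) := by
    rw [tendsto_zero_iff_abs_tendsto_zero]
    refine squeeze_zero' (Eventually.of_forall fun _ => abs_nonneg _) ?_ h3
    filter_upwards [eventually_ge_atTop n] with N hN using h N (a N) hN
  have h5 := h4.sub_const ((ArithmeticFunction.moebius n : ℤ) : ℝ)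
  simp only [add_sub_cancel_right, zero_sub] at h5
  exact h5

/-- `∫_0^u p² < m²` for `u < 1` -/
theorem part_lt (hLEG : S_LEG) {m : ℕ} (hm : 1 ≤ m) :
    ∫ x in (0 : ℝ)..(1 / 2), (pm m).eval x ^ 2 < (m : ℝ) ^ 2 := by
  obtain ⟨-, h2, -, h4, -⟩ := hLEG m
  have hc : Continuous fun x : ℝ => (pm m).eval x ^ 2 := (pm m).continuous.pow 2
  have h5 : ∫ x in (0 : ℝ)..1, (pm m).eval x ^ 2 = (∫ x in (0 : ℝ)..(1 / 2), (pm m).eval x ^ 2) +
      ∫ x in (1 / 2 : ℝ)..1, (pm m).eval x ^ 2 :=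
    (intervalIntegral.integral_add_adjacent_intervals (hc.intervalIntegrable _ _) (hc.intervalIntegrable _ _)).symm
  have hne : pm m ≠ 0 := by
    intro h
    rw [h, Polynomial.eval_zero] at h2
    have : (0 : ℝ) < (m : ℝ) ^ 2 := by positivity
    linarith
  have h6 : 0 < ∫ x in (1 / 2 : ℝ)..1, (pm m).eval x ^ 2 := by
    obtain ⟨c, hc1, hc2⟩ : ∃ c ∈ Ioo (1 / 2 : ℝ) 1, c ∉ (pm m).roots.toFinset :=
      (Set.Ioo_infinite (by norm_num : (1 / 2 : ℝ) < 1)).exists_notMem_finset _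
    refine intervalIntegral.integral_pos (by norm_num) hc.continuousOn (fun x _ => sq_nonneg _) ⟨c, Ioo_subset_Icc_self hc1, ?_⟩
    have : (pm m).eval c ≠ 0 := by
      intro h0
      apply hc2
      rw [Multiset.mem_toFinset]
      exact (Polynomial.mem_roots hne).2 h0
    positivity
  linarith

end Pool.Agent.Q260.OE
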