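import Pool.Agent.Q260.OE.Asm

set_option autoImplicit false

/-!
# Project OE: the equivalences
-/

namespace Pool.Agent.Q260.OE

open Complex MeasureTheory Filter Topology Set
open Pool.Agent.Q286.BD (cl mz dif JJ difR JR S_up S_low S_sum2 d2 CB summ_line sum_line tends)
open Pool.Agent.Q260.GM (ph L2psi)

theorem best_eq {N : ℕ} {a : ℕ → ℝ} (h : Best N a) : JJ N a = d2 N :=
  le_antisymm (Pool.Agent.Q286.BD.le_d2 h.2) (Pool.Agent.Q286.BD.d2_le N a)

theorem best_opt (hup : S_up) (hlow : S_low) (h2 : S_sum2) (hRH : RiemannHypothesis) {a : ℕ → ℕ → ℝ}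
    (h : ∀ N, Best N (a N)) : Opt a := by
  unfold Opt
  have e : BB = CB := sum_line hRH
  rw [e]
  refine Tendsto.congr (fun N => ?_) (tends hup hlow h2 hRH)
  rw [best_eq (h N)]

theorem PU_half (hLEG : S_LEG) (hPOS : S_POS) (h2 : S_sum2) (hRH : RiemannHypothesis) : PU (1 / 2) < BB := by
  have hs := summ_line hRH h2
  have hle : ∀ g : Go, (∫ x in (0 : ℝ)..(1 / 2), (pm (mz (cl g))).eval x ^ 2) / (1 / 4 + (g : ℝ) ^ 2) <
      (mz (cl g) : ℝ) ^ 2 / (1 / 4 + (g : ℝ) ^ 2) := by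
    intro g
    have h3 := part_lt hLEG (hPOS.1 g)
    have h4 : (0 : ℝ) < 1 / 4 + (g : ℝ) ^ 2 := by positivity
    gcongr
  have h0 : ∀ g : Go, 0 ≤ (∫ x in (0 : ℝ)..(1 / 2), (pm (mz (cl g))).eval x ^ 2) / (1 / 4 + (g : ℝ) ^ 2) := by
    intro g
    refine div_nonneg ?_ (by positivity)
    exact intervalIntegral.integral_nonneg (by norm_num) fun x _ => sq_nonneg _
  have hs1 : Summable (fun g : Go => (∫ x in (0 : ℝ)..(1 / 2), (pm (mz (cl g))).eval x ^ 2) / (1 / 4 + (g : ℝ) ^ 2)) :=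
    Summable.of_nonneg_of_le h0 (fun g => (hle g).le) hs
  have hne : Nonempty Go := by
    by_contra hno
    rw [not_nonempty_iff] at hno
    have : BB = 0 := by unfold BB; exact tsum_empty
    have h5 := (hPOS.2 hRH).1
    linarith
  obtain ⟨g0⟩ := hne
  exact Summable.tsum_lt_tsum (fun g => (hle g).le) (hle g0) hs1 hs

theorem pm_one : pm 1 = 1 := by
  unfold pm
  simp [Polynomial.shiftedLegendre]

theorem PU_simp (h : Simp) (u : ℝ) : PU u = u * BB := by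
  unfold PU BB
  rw [← tsum_mul_left]
  refine tsum_congr fun g => ?_
  rw [h g, pm_one]
  simp
  ring

theorem D2_simp (h : Simp) : D2 = 0 := by
  unfold D2
  have : ∀ g : Go, 2 * (mz (cl g) : ℝ) * ((mz (cl g) : ℝ) - 1) / (1 / 4 + (g : ℝ) ^ 2) = 0 := by
    intro g
    rw [h g]
    simp
  simp only [this, tsum_zero]

section eqv

variable (hNT : S_NT) (hCOR : S_COR1) (hPOS : S_POS) (hFRQ : S_FRQ) (hLEG : S_LEG) (hCOE : S_COE)
  (h1 : S_NR1) (h2 : S_NR2) (h3 : S_NR3) (h4 : S_NR4) (hU : S_UNI) (hup : S_up) (hlow : S_low) (hs : S_sum2)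
  {a : ℕ → ℕ → ℝ} (hb : ∀ N, Best N (a N))
include hNT hCOR h1 hup hlow hs hb

theorem rh_of_freq {C : ℝ} (hC : ∃ᶠ N : ℕ in atTop, gw N (a N) ≤ C) : RiemannHypothesis := by
  by_contra hno
  obtain ⟨c, hc, h⟩ := h1 hno a hb
  have h5 : ∀ᶠ N : ℕ in atTop, C < c * Real.log N := (log_top.const_mul_atTop hc).eventually_gt_atTop C
  obtain ⟨N, ⟨hN1, hN2⟩, hN3⟩ := ((hC.and_eventually h).and_eventually h5).exists
  unfold gw at hN1
  linarith

include hPOS hFRQ hLEG hCOE h2 h3 h4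

theorem tfae1 : List.TFAE [RiemannHypothesis,
    ∃ C : ℝ, ∀ N : ℕ, 2 ≤ N → gw N (a N) ≤ C,
    ∃ C : ℝ, ∃ᶠ N : ℕ in atTop, gw N (a N) ≤ C,
    ∀ n : ℕ, 1 ≤ n → Tendsto (fun N : ℕ => a N n) atTop (𝓝 (-((ArithmeticFunction.moebius n : ℤ) : ℝ))),
    ¬ Tendsto (fun N : ℕ => sw N (a N) (1 / 2)) atTop (𝓝 1),
    ∀ α β : ℝ, α < β → (∀ t ∈ Icc α β, riemannZeta (cl t) ≠ 0) →
      Tendsto (fun N : ℕ => fw N (a N) α β) atTop (𝓝 0)] := by
  tfae_have 1 → 2 := by
    intro hRH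
    obtain ⟨C, hC⟩ := (gw_lim hNT hCOR hRH (best_opt hup hlow hs hRH hb)).bddAbove_range
    exact ⟨C, fun N _ => hC ⟨N, rfl⟩⟩
  tfae_have 2 → 3 := by
    rintro ⟨C, hC⟩
    exact ⟨C, ((eventually_ge_atTop 2).mono fun N hN => hC N hN).frequently⟩
  tfae_have 3 → 1 := by
    rintro ⟨C, hC⟩
    exact rh_of_freq hNT hCOR h1 hup hlow hs hb hC
  tfae_have 1 → 4 := by
    intro hRH n hn
    exact coef_lim hCOE (best_opt hup hlow hs hRH hb) hn
  tfae_have 4 → 1 := fun h => h3 a hb h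
  tfae_have 1 → 5 := by
    intro hRH hno
    have h5 := sw_lim hNT hCOR hPOS hRH (best_opt hup hlow hs hRH hb) (u := 1 / 2) (by norm_num) (by norm_num)
    have h6 := tendsto_nhds_unique h5 hno
    have h7 := PU_half hLEG hPOS hs hRH
    have h8 := (hPOS.2 hRH).1
    rw [div_eq_one_iff_eq h8.ne'] at h6
    linarith
  tfae_have 5 → 1 := by
    intro h
    by_contra hno
    exact h (h2 hno a hb (1 / 2) (by norm_num))
  tfae_have 1 → 6 := by
    intro hRH α β hαβ hz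
    have h5 := fw_lim hNT hFRQ hPOS hRH (best_opt hup hlow hs hRH hb) hαβ (hz α (left_mem_Icc.2 hαβ.le))
      (hz β (right_mem_Icc.2 hαβ.le))
    have h6 : ∀ g : Go, (if α < (g : ℝ) ∧ (g : ℝ) < β then (mz (cl g) : ℝ) ^ 2 / (1 / 4 + (g : ℝ) ^ 2) else 0) = 0 := by
      intro g
      rw [if_neg]
      rintro ⟨h7, h8⟩
      exact hz g ⟨h7.le, h8.le⟩ g.2
    simp only [h6, tsum_zero, zero_div] at h5
    exact h5
  tfae_have 6 → 1 := by
    intro h
    by_contra hno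
    obtain ⟨α, β, c, hαβ, hc, hz, h5⟩ := h4 hno a hb
    have h6 := h α β hαβ hz
    obtain ⟨N, hN1, hN2⟩ := (h5.and (h6.eventually_lt_const hc)).exists
    unfold fw at hN2
    linarith
  tfae_finish

include hU

theorem tfae2 : List.TFAE [RiemannHypothesis ∧ Simp,
    Tendsto (fun N : ℕ => gw N (a N)) atTop (𝓝 0),
    ∀ u : ℝ, 0 ≤ u → u ≤ 1 → Tendsto (fun N : ℕ => sw N (a N) u) atTop (𝓝 u)] := by
  tfae_have 1 → 2 := by
    rintro ⟨hRH, hS⟩
    have h5 := gw_lim hNT hCOR hRH (best_opt hup hlow hs hRH hb)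
    rw [D2_simp hS] at h5
    exact h5
  tfae_have 2 → 1 := by
    intro h
    have hRH : RiemannHypothesis := rh_of_freq hNT hCOR h1 hup hlow hs hb (C := 1)
      (h.eventually_le_const (by norm_num)).frequently
    refine ⟨hRH, (hPOS.2 hRH).2.2 ?_⟩
    exact tendsto_nhds_unique (gw_lim hNT hCOR hRH (best_opt hup hlow hs hRH hb)) h
  tfae_have 1 → 3 := by
    rintro ⟨hRH, hS⟩ u h0 h5
    have h6 := sw_lim hNT hCOR hPOS hRH (best_opt hup hlow hs hRH hb) h0 h5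
    rw [PU_simp hS, mul_div_cancel_right₀ _ (hPOS.2 hRH).1.ne'] at h6
    exact h6
  tfae_have 3 → 1 := by
    intro h
    have hRH : RiemannHypothesis := by
      by_contra hno
      have h5 := tendsto_nhds_unique (h2 hno a hb (1 / 2) (by norm_num)) (h (1 / 2) (by norm_num) (by norm_num))
      norm_num at h5
    refine ⟨hRH, hU hRH fun u h0 h5 => ?_⟩
    have h6 := tendsto_nhds_unique (sw_lim hNT hCOR hPOS hRH (best_opt hup hlow hs hRH hb) h0 h5) (h u h0 h5)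
    have h7 := (hPOS.2 hRH).1
    rw [div_eq_iff h7.ne'] at h6
    exact h6
  tfae_finish

end eqv

end Pool.Agent.Q260.OE
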