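import Pool.Agent.Q260.OE.Asm2

set_option autoImplicit false

/-!
# Project OE: the theorem in the variable `x`
-/

namespace Pool.Agent.Q260.OE

open Complex MeasureTheory Filter Topology Set
open Pool.Agent.Q286.BD (cl mz dif JJ difR JR S_up S_low S_sum2)
open Pool.Agent.Q260.GM (ph L2psi)

/-- the prime error -/
noncomputable def PE (y : ℝ) : ℝ := y - Chebyshev.psi y

theorem PE_exp (w : ℝ) : PE (1 / Real.exp (-w)) = -ph w := by
  unfold PE ph
  rw [one_div, Real.exp_neg, inv_inv]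
  ring

theorem inv_N {N : ℕ} (hN : 1 ≤ N) : (1 / (N : ℝ)) = Real.exp (-Real.log N) := by
  have : (0 : ℝ) < N := by exact_mod_cast hN
  rw [Real.exp_neg, Real.exp_log this, one_div]

theorem ico_eq {N : ℕ} (hN : 1 ≤ N) (hXW : S_XW) (f : ℝ → ℝ) :
    ∫ x in Ioc (1 / (N : ℝ)) 1, f x = ∫ w in (0 : ℝ)..(Real.log N), f (Real.exp (-w)) * Real.exp (-w) := by
  have hl : 0 ≤ Real.log N := Real.log_natCast_nonneg N
  have h := hXW.2.1 f 0 (Real.log N) hl
  rw [neg_zero, Real.exp_zero, ← inv_N hN] at h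
  rw [h, intervalIntegral.integral_of_le hl, integral_Ico_eq_integral_Ioo, integral_Ioc_eq_integral_Ioo]

theorem gap_eq {N : ℕ} (hN : 1 ≤ N) (hXW : S_XW) (a : ℕ → ℝ) :
    Real.log N * ∫ x in Ioc (1 / (N : ℝ)) 1, (dif N a x - PE (1 / x) / Real.log N) ^ 2 = gw N a := by
  rw [ico_eq hN hXW]
  unfold gw
  congr 1
  refine intervalIntegral.integral_congr fun w _ => ?_
  show (dif N a (Real.exp (-w)) - PE (1 / Real.exp (-w)) / Real.log N) ^ 2 * Real.exp (-w) = _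
  rw [PE_exp]
  unfold Dn
  ring

theorem pair_eq {N : ℕ} (hN : 1 ≤ N) (hXW : S_XW) (a : ℕ → ℝ) :
    ∫ x in Ioc (1 / (N : ℝ)) 1, dif N a x * PE (1 / x) = pw N a := by
  rw [ico_eq hN hXW]
  unfold pw
  rw [← intervalIntegral.integral_neg]
  refine intervalIntegral.integral_congr fun w _ => ?_
  show dif N a (Real.exp (-w)) * PE (1 / Real.exp (-w)) * Real.exp (-w) = _
  rw [PE_exp]
  unfold Dn
  ring

theorem share_eq {N : ℕ} (hN : 1 ≤ N) (hXW : S_XW) (a : ℕ → ℝ) (u : ℝ) :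
    (∫ x in Ioi ((N : ℝ) ^ (-u)), dif N a x ^ 2) / JJ N a = sw N a u := by
  have h0 : (0 : ℝ) < N := by exact_mod_cast hN
  have e : (N : ℝ) ^ (-u) = Real.exp (-(u * Real.log N)) := by
    rw [Real.rpow_def_of_pos h0]
    congr 1
    ring
  rw [e, hXW.2.2.1 (fun x => dif N a x ^ 2) (u * Real.log N)]
  rfl

end Pool.Agent.Q260.OE
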