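import Pool.Agent.Q260.OE.Fin0

set_option autoImplicit false

/-!
# Project OE: the laws for real dilations in the variable `x`; natural dilations as finitely supported functions
-/

namespace Pool.Agent.Q260.OE

open Complex MeasureTheory Filter Topology Set
open Pool.Agent.Q286.BD (cl mz dif JJ difR JR S_up S_low S_sum2)
open Pool.Agent.Q260.GM (ph L2psi)

/-! ## from `x` to `w` -/

theorem lam_exp {lam : ℝ} (h0 : 0 < lam) : Real.exp (-Real.log (1 / lam)) = lam := by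
  rw [one_div, Real.log_inv, neg_neg, Real.exp_log h0]

theorem ico_eqR {lam : ℝ} (h0 : 0 < lam) (h1 : lam ≤ 1) (hXW : S_XW) (f : ℝ → ℝ) :
    ∫ x in Ioc lam 1, f x = ∫ w in (0 : ℝ)..(Real.log (1 / lam)), f (Real.exp (-w)) * Real.exp (-w) := by
  have hl : 0 ≤ Real.log (1 / lam) := Real.log_nonneg (by rw [le_div_iff₀ h0]; linarith)
  have h := hXW.2.1 f 0 (Real.log (1 / lam)) hl
  rw [neg_zero, Real.exp_zero, lam_exp h0] at h
  rw [h, intervalIntegral.integral_of_le hl, integral_Ico_eq_integral_Ioo, integral_Ioc_eq_integral_Ioo]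

theorem gapR_eq {lam : ℝ} (h0 : 0 < lam) (h1 : lam ≤ 1) (hXW : S_XW) (a : ℝ →₀ ℝ) :
    Real.log (1 / lam) * ∫ x in Ioc lam 1, (difR a x - PE (1 / x) / Real.log (1 / lam)) ^ 2 =
      Real.log (1 / lam) * ∫ w in (0 : ℝ)..(Real.log (1 / lam)),
        (De a w + ph w / Real.log (1 / lam)) ^ 2 * Real.exp (-w) := by
  rw [ico_eqR h0 h1 hXW]
  congr 1
  refine intervalIntegral.integral_congr fun w _ => ?_
  show (difR a (Real.exp (-w)) - PE (1 / Real.exp (-w)) / Real.log (1 / lam)) ^ 2 * Real.exp (-w) = _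
  rw [PE_exp]
  unfold De
  ring

theorem pairR_eq {lam : ℝ} (h0 : 0 < lam) (h1 : lam ≤ 1) (hXW : S_XW) (a : ℝ →₀ ℝ) :
    ∫ x in Ioc lam 1, difR a x * PE (1 / x) =
      -∫ w in (0 : ℝ)..(Real.log (1 / lam)), De a w * ph w * Real.exp (-w) := by
  rw [ico_eqR h0 h1 hXW]
  rw [← intervalIntegral.integral_neg]
  refine intervalIntegral.integral_congr fun w _ => ?_
  show difR a (Real.exp (-w)) * PE (1 / Real.exp (-w)) * Real.exp (-w) = _
  rw [PE_exp]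
  unfold De
  ring

theorem shareR_eq {lam : ℝ} (h0 : 0 < lam) (hXW : S_XW) (a : ℝ →₀ ℝ) (u : ℝ) :
    ∫ x in Ioi (lam ^ u), difR a x ^ 2 = ∫ w in Iio (u * Real.log (1 / lam)), De a w ^ 2 * Real.exp (-w) := by
  have e : lam ^ u = Real.exp (-(u * Real.log (1 / lam))) := by
    rw [Real.rpow_def_of_pos h0, one_div, Real.log_inv]
    congr 1
    ring
  rw [e, hXW.2.2.1 (fun x => difR a x ^ 2) (u * Real.log (1 / lam))]
  rfl

/-! ## families -/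

/-- the families of the theorem -/
def OptR (lam : ℕ → ℝ) (a : ℕ → (ℝ →₀ ℝ)) : Prop :=
  Tendsto lam atTop (𝓝[>] 0) ∧ (∀ᶠ j in atTop, ∀ θ ∈ (a j).support, lam j ≤ θ ∧ θ ≤ 1) ∧
    Tendsto (fun j => JR (a j) * Real.log (1 / lam j)) atTop (𝓝 BB)

theorem lam_ev {lam : ℕ → ℝ} (h : Tendsto lam atTop (𝓝[>] 0)) : ∀ᶠ j in atTop, 0 < lam j ∧ lam j ≤ 1 := by
  have h1 : ∀ᶠ x : ℝ in 𝓝[>] 0, 0 < x ∧ x ≤ 1 := by
    filter_upwards [self_mem_nhdsWithin, mem_nhdsWithin_of_mem_nhds (Iio_mem_nhds (zero_lt_one' ℝ))] with x hx hx1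
    exact ⟨hx, le_of_lt hx1⟩
  exact h.eventually h1

theorem log_lam {lam : ℕ → ℝ} (h : Tendsto lam atTop (𝓝[>] 0)) :
    Tendsto (fun j => Real.log (1 / lam j)) atTop atTop := by
  have h1 : Tendsto (fun j => (lam j)⁻¹) atTop atTop := tendsto_inv_nhdsGT_zero.comp h
  have h2 := Real.tendsto_log_atTop.comp h1
  refine Tendsto.congr (fun j => ?_) h2
  simp

open Classical in
/-- the corrected family -/
noncomputable def afix (lam : ℕ → ℝ) (a : ℕ → (ℝ →₀ ℝ)) (j : ℕ) : ℝ →₀ ℝ :=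
  if 0 < lam j ∧ ∀ θ ∈ (a j).support, lam j ≤ θ ∧ θ ≤ 1 then a j else 0

theorem afix_ev {lam : ℕ → ℝ} {a : ℕ → (ℝ →₀ ℝ)} (h : OptR lam a) : ∀ᶠ j in atTop, afix lam a j = a j := by
  filter_upwards [lam_ev h.1, h.2.1] with j h1 h2
  unfold afix
  rw [if_pos ⟨h1.1, h2⟩]

theorem famR {lam : ℕ → ℝ} {a : ℕ → (ℝ →₀ ℝ)} (h : OptR lam a) :
    Fam (fun j => Real.log (1 / lam j)) (afix lam a) where
  tend := log_lam h.1
  supp := by
    intro j θ hθ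
    unfold afix at hθ
    split_ifs at hθ with h1
    · rw [lam_exp h1.1]
      exact h1.2 θ hθ
    · simp at hθ
  opt := by
    refine Tendsto.congr' ?_ h.2.2
    filter_upwards [afix_ev h] with j hj
    rw [hj, mul_comm]

section laws

variable (hXW : S_XW) (hCOR : S_COR1) (hPOS : S_POS) (hRH : RiemannHypothesis) {lam : ℕ → ℝ} {a : ℕ → (ℝ →₀ ℝ)}
  (ho : OptR lam a)
include hXW hCOR hRH ho

theorem gapR_lim : Tendsto (fun j => Real.log (1 / lam j) *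
    ∫ x in Ioc (lam j) 1, (difR (a j) x - PE (1 / x) / Real.log (1 / lam j)) ^ 2) atTop (𝓝 D2) := by
  have h := (hCOR hRH _ _ (famR ho)).1
  refine Tendsto.congr' ?_ h
  filter_upwards [afix_ev ho, lam_ev ho.1] with j h1 h2
  rw [gapR_eq h2.1 h2.2 hXW, h1]

theorem pairR_lim : Tendsto (fun j => ∫ x in Ioc (lam j) 1, difR (a j) x * PE (1 / x)) atTop
    (𝓝 (∑' g : Go, (mz (cl g) : ℝ) / (1 / 4 + (g : ℝ) ^ 2))) := by
  have h := (hCOR hRH _ _ (famR ho)).2.1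
  refine Tendsto.congr' ?_ h
  filter_upwards [afix_ev ho, lam_ev ho.1] with j h1 h2
  rw [pairR_eq h2.1 h2.2 hXW, h1]

include hPOS

theorem shareR_lim {u : ℝ} (h0 : 0 ≤ u) (h1 : u ≤ 1) :
    Tendsto (fun j => (∫ x in Ioi (lam j ^ u), difR (a j) x ^ 2) / JR (a j)) atTop (𝓝 (PU u / BB)) := by
  have h := (hCOR hRH _ _ (famR ho)).2.2.1 u h0 h1
  have h2 := h.div ho.2.2 ((hPOS.2 hRH).1.ne')
  refine Tendsto.congr' ?_ h2
  filter_upwards [(log_lam ho.1).eventually_gt_atTop 0, afix_ev ho, lam_ev ho.1] with j hj h3 h4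
  rw [Pi.div_apply, shareR_eq h4.1 hXW, h3, mul_comm (JR (a j)), mul_div_mul_left _ _ hj.ne']

omit hXW hCOR

theorem freqR_lim (hFRQ : S_FRQ) {α β : ℝ} (hαβ : α < β) (hα : riemannZeta (cl α) ≠ 0) (hβ : riemannZeta (cl β) ≠ 0) :
    Tendsto (fun j => 1 / (2 * Real.pi) * (∫ t in α..β, ‖TT (a j) t‖ ^ 2 / (1 / 4 + t ^ 2)) / JR (a j)) atTop
      (𝓝 ((∑' g : Go, if α < (g : ℝ) ∧ (g : ℝ) < β then (mz (cl g) : ℝ) ^ 2 / (1 / 4 + (g : ℝ) ^ 2) else 0) / BB)) := by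
  have h := hFRQ hRH _ _ (famR ho) α β hαβ hα hβ
  have h2 := h.div ho.2.2 ((hPOS.2 hRH).1.ne')
  refine Tendsto.congr' ?_ h2
  filter_upwards [(log_lam ho.1).eventually_gt_atTop 0, afix_ev ho] with j hj h3
  rw [Pi.div_apply, h3, mul_comm (JR (a j)), mul_div_mul_left _ _ hj.ne']

omit hPOS

theorem proR_lim (hPRO : S_PRO) {g R : ℝ} (hg : riemannZeta (cl g) = 0) (hR : 0 < R) :
    Tendsto (fun j => ∫ v in (-R)..R, ‖TT (a j) (g + v / Real.log (1 / lam j)) - FF (mz (cl g)) v‖ ^ 2) atTop (𝓝 0) := by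
  refine Tendsto.congr' ?_ (hPRO hRH _ _ (famR ho) g R hg hR)
  filter_upwards [afix_ev ho] with j h3
  rw [h3]

end laws

/-! ## natural dilations -/

/-- natural dilations -/
def Nat' (N : ℕ) (a : ℝ →₀ ℝ) : Prop := ∀ θ ∈ a.support, ∃ n : ℕ, 1 ≤ n ∧ n ≤ N ∧ θ = 1 / (n : ℝ)

/-- the coefficients -/
noncomputable def co (N : ℕ) (a : ℝ →₀ ℝ) (n : ℕ) : ℝ := if 1 ≤ n ∧ n ≤ N then a (1 / (n : ℝ)) else 0

theorem nt_apply (N : ℕ) (b : ℕ → ℝ) (θ : ℝ) : nt N b θ = ∑ n ∈ Finset.Icc 1 N, if 1 / (n : ℝ) = θ then b n else 0 := by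
  unfold nt
  rw [Finsupp.finsetSum_apply]
  refine Finset.sum_congr rfl fun n _ => ?_
  rw [Finsupp.single_apply]

theorem inv_inj' {n m : ℕ} (h : 1 / (n : ℝ) = 1 / (m : ℝ)) : n = m := by
  rw [one_div, one_div, inv_inj] at h
  exact_mod_cast h

theorem nt_at {N : ℕ} (b : ℕ → ℝ) {n : ℕ} (h1 : 1 ≤ n) (h2 : n ≤ N) : nt N b (1 / (n : ℝ)) = b n := by
  rw [nt_apply]
  have e : ∀ m ∈ Finset.Icc 1 N, (if 1 / (m : ℝ) = 1 / (n : ℝ) then b m else 0) = if m = n then b n else 0 := by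
    intro m _
    by_cases h : m = n
    · subst h; simp
    · rw [if_neg h, if_neg (fun h' => h (inv_inj' h'))]
  rw [Finset.sum_congr rfl e, Finset.sum_ite_eq' (Finset.Icc 1 N) n, if_pos (Finset.mem_Icc.2 ⟨h1, h2⟩)]

theorem nt_nat (N : ℕ) (b : ℕ → ℝ) : Nat' N (nt N b) := by
  intro θ hθ
  rw [Finsupp.mem_support_iff, nt_apply] at hθ
  obtain ⟨n, hn, hne⟩ := Finset.exists_ne_zero_of_sum_ne_zero hθ
  rw [Finset.mem_Icc] at hn
  refine ⟨n, hn.1, hn.2, ?_⟩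
  by_contra h
  exact hne (if_neg fun h' => h h'.symm)

theorem nt_co {N : ℕ} {a : ℝ →₀ ℝ} (h : Nat' N a) : nt N (co N a) = a := by
  ext θ
  by_cases hθ : θ ∈ a.support
  · obtain ⟨n, h1, h2, rfl⟩ := h θ hθ
    rw [nt_at _ h1 h2]
    unfold co
    rw [if_pos ⟨h1, h2⟩]
  · have h0 : a θ = 0 := by simpa using hθ
    rw [nt_apply, h0]
    refine Finset.sum_eq_zero fun n hn => ?_
    rw [Finset.mem_Icc] at hn
    split_ifs with h3
    · unfold co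
      rw [if_pos hn, h3, h0]
    · rfl

theorem co_nt {N : ℕ} {b : ℕ → ℝ} (h : ∀ n, ¬ (1 ≤ n ∧ n ≤ N) → b n = 0) : co N (nt N b) = b := by
  funext n
  unfold co
  split_ifs with h1
  · exact nt_at b h1.1 h1.2
  · exact (h n h1).symm

/-- best natural approximation, as a finitely supported function -/
def BestR (N : ℕ) (a : ℝ →₀ ℝ) : Prop := Nat' N a ∧ ∀ b : ℝ →₀ ℝ, Nat' N b → JR a ≤ JR b

theorem best_co (hNT : S_NT) {N : ℕ} {a : ℝ →₀ ℝ} (h : BestR N a) : Best N (co N a) := by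
  refine ⟨fun n hn => if_neg hn, fun b => ?_⟩
  have h1 := h.2 (nt N b) (nt_nat N b)
  rw [(hNT N b).2.1] at h1
  rw [← (hNT N (co N a)).2.1, nt_co h.1]
  exact h1

theorem best_nt (hNT : S_NT) {N : ℕ} {b : ℕ → ℝ} (h : Best N b) : BestR N (nt N b) := by
  refine ⟨nt_nat N b, fun c hc => ?_⟩
  rw [(hNT N b).2.1, ← nt_co hc, (hNT N (co N c)).2.1]
  exact h.2 _

theorem exists_bestR (hNT : S_NT) (hB : S_BST) (N : ℕ) : ∃! a : ℝ →₀ ℝ, BestR N a := by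
  obtain ⟨b, hb, hu⟩ := hB.1 N
  refine ⟨nt N b, best_nt hNT hb, fun a ha => ?_⟩
  have h1 := hu _ (best_co hNT ha)
  rw [← nt_co ha.1]
  exact congrArg (nt N) h1

end Pool.Agent.Q260.OE
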