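import Pool.Agent.Q260.OE.Stm

set_option autoImplicit false

/-!
# Project OE: the coefficients of the approximations by real dilations
-/

namespace Pool.Agent.Q260.OE

open Complex MeasureTheory Filter Topology Set
open Pool.Agent.Q286.BD (cl mz dif JJ difR JR)

/-- the sum of the coefficients of the dilations `θ ≥ x` -/
noncomputable def tl (a : ℝ →₀ ℝ) (x : ℝ) : ℝ := a.sum fun θ c => if x ≤ θ then c else 0

/-- the sum of the Möbius function -/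
noncomputable def MM (y : ℝ) : ℝ := ∑ n ∈ Finset.Icc 1 ⌊y⌋₊, ((ArithmeticFunction.moebius n : ℤ) : ℝ)

/-- JOB COA: the coefficients of real dilations. **Proof.** Let `B = ∑ a_θ θ`. For `x > 1`, `difR a x = -B/x` (as `0 < θ/x < 1`), so
`B² = ∫_1^∞ (difR a x)² dx ≤ JR a` (integrability of `difR²`: `Pool.Agent.Q286.BD.S_intR`, proved in
`Pool/Agent/Q286/BD/All.lean`; take it as a hypothesis `hint : Pool.Agent.Q286.BD.S_intR` if you like). For `0 < x ≤ 1`: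
`F(x) := ∑ a_θ ⌊θ/x⌋ = difR a x - 1 + B/x`, and `F(x) = 0` for `x > 1`.  As `⌊θ/x⌋ = #{k ≥ 1 : k x ≤ θ}`,
`F(x) = ∑_{k ≥ 1} tl a (k x)` (finitely many terms, `tl a y = 0` for `y > 1`). Möbius inversion (`∑_{k m = n} μ(k) = [n = 1]`):
`tl a x = ∑_{k ≤ 1/x} μ(k) F(k x)` `= ∑_{k ≤ 1/x} μ(k) (difR a (k x) - 1 + B/(k x))`, hence
`tl a x + MM (1/x) = ∑_{k ≤ 1/x} μ(k) (difR a (k x) + B/(k x))`. (One can prove the identity coefficient by coefficient: for one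
`θ`, `[x ≤ θ] = ∑_{k ≤ 1/x} μ(k) ⌊θ/(k x)⌋`, from `∑_{k ≤ z} μ(k) ⌊z/k⌋ = 1` for `z ≥ 1`, and `⌊θ/(kx)⌋ = 0` for `k > θ/x`.)
For `x > δ` there are at most `1/δ` terms, so by Cauchy-Schwarz the square is
`≤ (2/δ) ∑_{k ≤ 1/δ} (difR a (k x)² + B²/(k x)²)`; `∫_δ^1 difR a (k x)² dx ≤ (1/k) JR a ≤ JR a`, `∫_δ^1 B²/(k x)² dx ≤ B²/δ ≤ JR a/δ`. -/
def S_COA : Prop := ∀ δ : ℝ, 0 < δ → ∃ C : ℝ, 0 < C ∧ ∀ a : ℝ →₀ ℝ, (∀ θ ∈ a.support, 0 < θ ∧ θ ≤ 1) →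
  ∫ x in Ioc δ 1, (tl a x + MM (1 / x)) ^ 2 ≤ C * JR a

end Pool.Agent.Q260.OE
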