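import Pool.Agent.Q260.OE.Fin1
import Pool.Agent.Q260.OE.Stm3

set_option autoImplicit false

/-!
# Project OE: the theorem for natural dilations as finitely supported functions, and the coefficients of real dilations
-/

namespace Pool.Agent.Q260.OE

open Complex MeasureTheory Filter Topology Set
open Pool.Agent.Q286.BD (cl mz dif JJ difR JR S_up S_low S_sum2)
open Pool.Agent.Q260.GM (ph L2psi)

/-- the gap -/
noncomputable def gapR (lam : ℝ) (a : ℝ →₀ ℝ) : ℝ :=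
  Real.log (1 / lam) * ∫ x in Ioc lam 1, (difR a x - PE (1 / x) / Real.log (1 / lam)) ^ 2

/-- the share -/
noncomputable def shareR (lam : ℝ) (a : ℝ →₀ ℝ) (u : ℝ) : ℝ := (∫ x in Ioi (lam ^ u), difR a x ^ 2) / JR a

/-- the frequencies -/
noncomputable def freqR (a : ℝ →₀ ℝ) (α β : ℝ) : ℝ :=
  1 / (2 * Real.pi) * (∫ t in α..β, ‖TT a t‖ ^ 2 / (1 / 4 + t ^ 2)) / JR a

theorem log_inv_inv (N : ℕ) : Real.log (1 / (1 / (N : ℝ))) = Real.log N := by rw [one_div_one_div]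

section conv

variable (hNT : S_NT)
include hNT

theorem JR_co {N : ℕ} {a : ℝ →₀ ℝ} (h : Nat' N a) : JR a = JJ N (co N a) := by
  rw [← (hNT N (co N a)).2.1, nt_co h]

theorem difR_co {N : ℕ} {a : ℝ →₀ ℝ} (h : Nat' N a) : difR a = dif N (co N a) := by
  rw [← (hNT N (co N a)).1, nt_co h]

theorem TT_co {N : ℕ} {a : ℝ →₀ ℝ} (h : Nat' N a) (t : ℝ) : TT a t = Tn N (co N a) t := by
  rw [← (hNT N (co N a)).2.2.2.1 t, nt_co h]

theorem gapR_co (hXW : S_XW) {N : ℕ} (hN : 1 ≤ N) {a : ℝ →₀ ℝ} (h : Nat' N a) :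
    gapR (1 / (N : ℝ)) a = gw N (co N a) := by
  unfold gapR
  rw [log_inv_inv, difR_co hNT h]
  exact gap_eq hN hXW _

theorem shareR_co (hXW : S_XW) {N : ℕ} (hN : 1 ≤ N) {a : ℝ →₀ ℝ} (h : Nat' N a) (u : ℝ) :
    shareR (1 / (N : ℝ)) a u = sw N (co N a) u := by
  unfold shareR
  rw [difR_co hNT h, JR_co hNT h, ← share_eq hN hXW]
  congr 4
  rw [one_div, Real.inv_rpow (Nat.cast_nonneg N), Real.rpow_neg (Nat.cast_nonneg N)]

theorem freqR_co {N : ℕ} {a : ℝ →₀ ℝ} (h : Nat' N a) (α β : ℝ) : freqR a α β = fw N (co N a) α β := by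
  unfold freqR fw
  simp only [TT_co hNT h, JR_co hNT h]

theorem optR_co {a : ℕ → (ℝ →₀ ℝ)} (h : ∀ N, Nat' N (a N)) (ho : Opt fun N => co N (a N)) :
    OptR (fun N : ℕ => 1 / (N : ℝ)) a := by
  refine ⟨?_, ?_, ?_⟩
  · refine tendsto_nhdsWithin_iff.2 ⟨tendsto_one_div_atTop_nhds_zero_nat, ?_⟩
    filter_upwards [eventually_ge_atTop 1] with N hN
    have : (0 : ℝ) < N := by exact_mod_cast hN
    exact one_div_pos.2 this
  · refine Eventually.of_forall fun N θ hθ => ?_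
    rw [← nt_co (h N)] at hθ
    exact (hNT N (co N (a N))).2.2.2.2 θ hθ
  · refine Tendsto.congr (fun N => ?_) ho
    show JJ N (co N (a N)) * Real.log N = JR (a N) * Real.log (1 / (1 / (N : ℝ)))
    rw [log_inv_inv, JR_co hNT (h N)]

end conv

/-- the coefficients of asymptotically optimal families -/
theorem coaR_lim (hCOA : S_COA) {lam : ℕ → ℝ} {a : ℕ → (ℝ →₀ ℝ)} (ho : OptR lam a) {δ : ℝ} (hδ : 0 < δ) :
    Tendsto (fun j => ∫ x in Ioc δ 1, (tl (a j) x + MM (1 / x)) ^ 2) atTop (𝓝 0) := by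
  obtain ⟨C, hC, h⟩ := hCOA δ hδ
  have h1 : Tendsto (fun j => JR (a j)) atTop (𝓝 0) := by
    have h2 := ho.2.2.div_atTop (log_lam ho.1)
    refine Tendsto.congr' ?_ h2
    filter_upwards [(log_lam ho.1).eventually_gt_atTop 0] with N hN
    rw [mul_div_cancel_right₀ _ hN.ne']
  have h3 : Tendsto (fun j => C * JR (a j)) atTop (𝓝 0) := by simpa using h1.const_mul C
  refine squeeze_zero' (Eventually.of_forall fun j => integral_nonneg fun x => sq_nonneg _) ?_ h3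
  filter_upwards [ho.2.1, lam_ev ho.1] with j h4 h5
  exact h (a j) fun θ hθ => ⟨lt_of_lt_of_le h5.1 (h4 θ hθ).1, (h4 θ hθ).2⟩

section best

variable (hNT : S_NT) (hXW : S_XW) (hCOR : S_COR1) (hPOS : S_POS) (hFRQ : S_FRQ) (hLEG : S_LEG) (hCOE : S_COE)
  (h1 : S_NR1) (h2 : S_NR2) (h3 : S_NR3) (h4 : S_NR4) (hU : S_UNI) (hup : S_up) (hlow : S_low) (hs : S_sum2)
  {a : ℕ → (ℝ →₀ ℝ)} (hb : ∀ N, BestR N (a N))
include hNT hb

theorem best_optR (hRH : RiemannHypothesis) (hup : S_up) (hlow : S_low) (hs : S_sum2) :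
    OptR (fun N : ℕ => 1 / (N : ℝ)) a :=
  optR_co hNT (fun N => (hb N).1) (best_opt hup hlow hs hRH fun N => best_co hNT (hb N))

include hXW

theorem gapR_tends (c : ℝ) : Tendsto (fun N : ℕ => gapR (1 / (N : ℝ)) (a N)) atTop (𝓝 c) ↔
    Tendsto (fun N : ℕ => gw N (co N (a N))) atTop (𝓝 c) :=
  tendsto_congr' (by filter_upwards [eventually_ge_atTop 1] with N hN using gapR_co hNT hXW hN (hb N).1)

theorem shareR_tends (u c : ℝ) : Tendsto (fun N : ℕ => shareR (1 / (N : ℝ)) (a N) u) atTop (𝓝 c) ↔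
    Tendsto (fun N : ℕ => sw N (co N (a N)) u) atTop (𝓝 c) :=
  tendsto_congr' (by filter_upwards [eventually_ge_atTop 1] with N hN using shareR_co hNT hXW hN (hb N).1 u)

include h1 in
theorem no_gap (hno : ¬ RiemannHypothesis) : ∃ c : ℝ, 0 < c ∧ ∀ᶠ N : ℕ in atTop, c * Real.log N ≤ gapR (1 / (N : ℝ)) (a N) := by
  obtain ⟨c, hc, h⟩ := h1 hno (fun N => co N (a N)) fun N => best_co hNT (hb N)
  refine ⟨c, hc, ?_⟩
  filter_upwards [h, eventually_ge_atTop 1] with N h5 h6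
  rw [gapR_co hNT hXW h6 (hb N).1]
  exact h5

include h2 in
theorem no_share (hno : ¬ RiemannHypothesis) (u : ℝ) (hu : 0 < u) :
    Tendsto (fun N : ℕ => shareR (1 / (N : ℝ)) (a N) u) atTop (𝓝 1) :=
  (shareR_tends hNT hXW hb u 1).2 (h2 hno (fun N => co N (a N)) (fun N => best_co hNT (hb N)) u hu)

include hCOR hPOS hFRQ hLEG hCOE h1 h2 h3 h4 hup hlow hs

theorem tfae1R : List.TFAE [RiemannHypothesis,
    ∃ C : ℝ, ∀ N : ℕ, 2 ≤ N → gapR (1 / (N : ℝ)) (a N) ≤ C,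
    ∃ C : ℝ, ∃ᶠ N : ℕ in atTop, gapR (1 / (N : ℝ)) (a N) ≤ C,
    ∀ n : ℕ, 1 ≤ n → Tendsto (fun N : ℕ => a N (1 / (n : ℝ))) atTop (𝓝 (-((ArithmeticFunction.moebius n : ℤ) : ℝ))),
    ¬ Tendsto (fun N : ℕ => shareR (1 / (N : ℝ)) (a N) (1 / 2)) atTop (𝓝 1),
    ∀ α β : ℝ, α < β → (∀ t ∈ Icc α β, riemannZeta (cl t) ≠ 0) →
      Tendsto (fun N : ℕ => freqR (a N) α β) atTop (𝓝 0)] := by
  have e2 : (∃ C : ℝ, ∀ N : ℕ, 2 ≤ N → gapR (1 / (N : ℝ)) (a N) ≤ C) ↔ ∃ C : ℝ, ∀ N : ℕ, 2 ≤ N → gw N (co N (a N)) ≤ C :=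
    exists_congr fun C => forall₂_congr fun N hN => by rw [gapR_co hNT hXW (by omega) (hb N).1]
  have e3 : (∃ C : ℝ, ∃ᶠ N : ℕ in atTop, gapR (1 / (N : ℝ)) (a N) ≤ C) ↔
      ∃ C : ℝ, ∃ᶠ N : ℕ in atTop, gw N (co N (a N)) ≤ C :=
    exists_congr fun C => frequently_congr (by
      filter_upwards [eventually_ge_atTop 1] with N hN
      rw [gapR_co hNT hXW hN (hb N).1])
  have e4 : (∀ n : ℕ, 1 ≤ n → Tendsto (fun N : ℕ => a N (1 / (n : ℝ))) atTop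
      (𝓝 (-((ArithmeticFunction.moebius n : ℤ) : ℝ)))) ↔
      ∀ n : ℕ, 1 ≤ n → Tendsto (fun N : ℕ => co N (a N) n) atTop (𝓝 (-((ArithmeticFunction.moebius n : ℤ) : ℝ))) :=
    forall₂_congr fun n hn => tendsto_congr' (by
      filter_upwards [eventually_ge_atTop n] with N hN
      unfold co
      rw [if_pos ⟨hn, hN⟩])
  have e5 := not_congr (shareR_tends hNT hXW hb (1 / 2) 1)
  have e6 : (∀ α β : ℝ, α < β → (∀ t ∈ Icc α β, riemannZeta (cl t) ≠ 0) →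
      Tendsto (fun N : ℕ => freqR (a N) α β) atTop (𝓝 0)) ↔
      ∀ α β : ℝ, α < β → (∀ t ∈ Icc α β, riemannZeta (cl t) ≠ 0) →
      Tendsto (fun N : ℕ => fw N (co N (a N)) α β) atTop (𝓝 0) := by
    simp only [freqR_co hNT (hb _).1]
  rw [e2, e3, e4, e5, e6]
  exact tfae1 hNT hCOR hPOS hFRQ hLEG hCOE h1 h2 h3 h4 hup hlow hs fun N => best_co hNT (hb N)

include hU

theorem tfae2R : List.TFAE [RiemannHypothesis ∧ Simp,
    Tendsto (fun N : ℕ => gapR (1 / (N : ℝ)) (a N)) atTop (𝓝 0),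
    ∀ u : ℝ, 0 ≤ u → u ≤ 1 → Tendsto (fun N : ℕ => shareR (1 / (N : ℝ)) (a N) u) atTop (𝓝 u)] := by
  have e3 : (∀ u : ℝ, 0 ≤ u → u ≤ 1 → Tendsto (fun N : ℕ => shareR (1 / (N : ℝ)) (a N) u) atTop (𝓝 u)) ↔
      ∀ u : ℝ, 0 ≤ u → u ≤ 1 → Tendsto (fun N : ℕ => sw N (co N (a N)) u) atTop (𝓝 u) :=
    forall_congr' fun u => forall₂_congr fun _ _ => shareR_tends hNT hXW hb u u
  rw [gapR_tends hNT hXW hb 0, e3]
  exact tfae2 hNT hCOR hPOS hFRQ hLEG hCOE h1 h2 h3 h4 hU hup hlow hs fun N => best_co hNT (hb N)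

end best

end Pool.Agent.Q260.OE
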