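import Pool.Agent.Q260.OE.Fin2

set_option autoImplicit false

/-!
# Project OE: the place of the error decides with one exponent
-/

namespace Pool.Agent.Q260.OE

open Complex MeasureTheory Filter Topology Set
open Pool.Agent.Q286.BD (cl mz dif JJ difR JR S_up S_low S_sum2 summ_line)
open Pool.Agent.Q260.GM (ph L2psi)

/-- `∫_0^u p² - u m² = ∫_0^u (p(x) - p(x/u))² dx` -/
theorem pm_place (hLEG : S_LEG) (m : ℕ) {u : ℝ} (hu : 0 < u) :
    (∫ x in (0 : ℝ)..u, (pm m).eval x ^ 2) - u * (m : ℝ) ^ 2 =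
      ∫ x in (0 : ℝ)..u, ((pm m).eval x - (pm m).eval (x / u)) ^ 2 := by
  obtain ⟨h1, h2, h3, h4, -⟩ := hLEG m
  have hc : Continuous fun x : ℝ => (pm m).eval x := (pm m).continuous
  have hcu : Continuous fun x : ℝ => (pm m).eval (x / u) := hc.comp (continuous_id.div_const u)
  have e1 : ∫ x in (0 : ℝ)..u, (pm m).eval (x / u) ^ 2 = u * (m : ℝ) ^ 2 := by
    rw [intervalIntegral.integral_comp_div (fun x => (pm m).eval x ^ 2) hu.ne', zero_div, div_self hu.ne', h4]
    rfl
  have e2 : ∫ x in (0 : ℝ)..u, (pm m).eval (x / u) * (pm m).eval x = u * (m : ℝ) ^ 2 := by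
    have h5 := h3 ((pm m).comp (Polynomial.C u * Polynomial.X)) (by
      refine lt_of_le_of_lt ?_ h1
      rcases eq_or_ne (pm m) 0 with h0 | h0
      · rw [h0]; simp
      · refine le_trans Polynomial.degree_le_natDegree ?_
        rw [Polynomial.degree_eq_natDegree h0]
        have h6 := Polynomial.natDegree_comp_le (p := pm m) (q := Polynomial.C u * Polynomial.X)
        have h7 : (Polynomial.C u * Polynomial.X : Polynomial ℝ).natDegree ≤ 1 := by
          refine le_trans (Polynomial.natDegree_C_mul_le _ _) ?_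
          exact Polynomial.natDegree_X_le
        have h8 : ((pm m).comp (Polynomial.C u * Polynomial.X)).natDegree ≤ (pm m).natDegree := by nlinarith
        exact_mod_cast h8)
    have h9 : ∀ x : ℝ, ((pm m).comp (Polynomial.C u * Polynomial.X)).eval x = (pm m).eval (u * x) := by
      intro x; simp
    simp only [h9, mul_zero] at h5
    have h10 := intervalIntegral.integral_comp_div (a := 0) (b := u)
      (fun x => (pm m).eval x * (pm m).eval (u * x)) hu.ne'
    rw [zero_div, div_self hu.ne', h5, h2] at h10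
    have h11 : ∀ x : ℝ, u * (x / u) = x := fun x => by field_simp
    simp only [h11] at h10
    rw [h10]
    rfl
  have e3 : ∫ x in (0 : ℝ)..u, ((pm m).eval x - (pm m).eval (x / u)) ^ 2 =
      (∫ x in (0 : ℝ)..u, (pm m).eval x ^ 2) - 2 * (∫ x in (0 : ℝ)..u, (pm m).eval (x / u) * (pm m).eval x) +
        ∫ x in (0 : ℝ)..u, (pm m).eval (x / u) ^ 2 := by
    rw [← intervalIntegral.integral_const_mul, ← intervalIntegral.integral_sub, ← intervalIntegral.integral_add]
    · refine intervalIntegral.integral_congr fun x _ => ?_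
      show ((pm m).eval x - (pm m).eval (x / u)) ^ 2 = _
      ring
    · exact ((hc.pow 2).intervalIntegrable _ _).sub (((hcu.mul hc).const_smul (2 : ℝ)).intervalIntegrable _ _)
    · exact (hcu.pow 2).intervalIntegrable _ _
    · exact (hc.pow 2).intervalIntegrable _ _
    · exact ((hcu.mul hc).const_smul (2 : ℝ)).intervalIntegrable _ _
  rw [e3, e1, e2]
  ring

theorem pm_place_le (hLEG : S_LEG) (m : ℕ) {u : ℝ} (hu : 0 ≤ u) :
    u * (m : ℝ) ^ 2 ≤ ∫ x in (0 : ℝ)..u, (pm m).eval x ^ 2 := by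
  rcases hu.eq_or_lt with h0 | h0
  · rw [← h0]; simp
  · have h := pm_place hLEG m h0
    have h1 : 0 ≤ ∫ x in (0 : ℝ)..u, ((pm m).eval x - (pm m).eval (x / u)) ^ 2 :=
      intervalIntegral.integral_nonneg h0.le fun x _ => sq_nonneg _
    linarith

theorem pm_place_lt (hLEG : S_LEG) {m : ℕ} (hm : 2 ≤ m) {u : ℝ} (hu : 0 < u) (hu1 : u < 1) :
    u * (m : ℝ) ^ 2 < ∫ x in (0 : ℝ)..u, (pm m).eval x ^ 2 := by
  have h := pm_place hLEG m hu
  obtain ⟨h1, h2, h3, h4, h5, -⟩ := hLEG m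
  have hc : Continuous fun x : ℝ => (pm m).eval x := (pm m).continuous
  have hcu : Continuous fun x : ℝ => (pm m).eval (x / u) := hc.comp (continuous_id.div_const u)
  have hne : pm m - (pm m).comp (Polynomial.C (1 / u) * Polynomial.X) ≠ 0 := by
    intro h0
    have h6 : ∀ k : ℕ, (pm m).coeff k = (pm m).coeff k * (1 / u) ^ k := by
      intro k
      have h7 := congrArg (fun p : Polynomial ℝ => p.coeff k) h0
      simp only [Polynomial.coeff_sub, Polynomial.comp_C_mul_X_coeff, Polynomial.coeff_zero] at h7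
      linarith
    have h8 : ∀ k : ℕ, 1 ≤ k → (pm m).coeff k = 0 := by
      intro k hk
      have h9 := h6 k
      have h10 : 1 < (1 / u) ^ k := one_lt_pow₀ (by rw [lt_div_iff₀ hu]; linarith) (by omega)
      have h11 : (pm m).coeff k * ((1 / u) ^ k - 1) = 0 := by linarith
      rcases mul_eq_zero.1 h11 with h12 | h12
      · exact h12
      · exfalso; linarith
    have h13 : ∀ x : ℝ, (pm m).eval x = (m : ℝ) ^ 2 := by
      intro x
      rw [← h2, Polynomial.eval_eq_sum_range, Polynomial.eval_eq_sum_range]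
      refine Finset.sum_congr rfl fun k _ => ?_
      rcases Nat.eq_zero_or_pos k with hk | hk
      · subst hk; simp
      · rw [h8 k hk]; simp
    have h14 := h5 (by omega)
    simp only [h13] at h14
    rw [intervalIntegral.integral_const] at h14
    simp only [sub_zero, smul_eq_mul, one_mul] at h14
    have h15 : (2 : ℝ) ≤ m := by exact_mod_cast hm
    nlinarith
  have h6 : 0 < ∫ x in (0 : ℝ)..u, ((pm m).eval x - (pm m).eval (x / u)) ^ 2 := by
    obtain ⟨c, hc1, hc2⟩ : ∃ c ∈ Ioo (0 : ℝ) u,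
        c ∉ (pm m - (pm m).comp (Polynomial.C (1 / u) * Polynomial.X)).roots.toFinset :=
      (Set.Ioo_infinite hu).exists_notMem_finset _
    refine intervalIntegral.integral_pos hu ((hc.sub hcu).pow 2).continuousOn (fun x _ => sq_nonneg _)
      ⟨c, Ioo_subset_Icc_self hc1, ?_⟩
    have h7 : (pm m - (pm m).comp (Polynomial.C (1 / u) * Polynomial.X)).eval c ≠ 0 := by
      intro h0
      apply hc2
      rw [Multiset.mem_toFinset]
      exact (Polynomial.mem_roots hne).2 h0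
    have h8 : (pm m - (pm m).comp (Polynomial.C (1 / u) * Polynomial.X)).eval c =
        (pm m).eval c - (pm m).eval (c / u) := by
      simp only [Polynomial.eval_sub, Polynomial.eval_comp, Polynomial.eval_mul, Polynomial.eval_C, Polynomial.eval_X]
      congr 2
      ring
    rw [h8] at h7
    positivity
  linarith

theorem pm_part_lt (hLEG : S_LEG) {m : ℕ} (hm : 1 ≤ m) {u : ℝ} (hu1 : u < 1) :
    ∫ x in (0 : ℝ)..u, (pm m).eval x ^ 2 < (m : ℝ) ^ 2 := by
  obtain ⟨-, h2, -, h4, -⟩ := hLEG m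
  have hc : Continuous fun x : ℝ => (pm m).eval x ^ 2 := (pm m).continuous.pow 2
  have h5 : ∫ x in (0 : ℝ)..1, (pm m).eval x ^ 2 = (∫ x in (0 : ℝ)..u, (pm m).eval x ^ 2) +
      ∫ x in u..1, (pm m).eval x ^ 2 :=
    (intervalIntegral.integral_add_adjacent_intervals (hc.intervalIntegrable _ _) (hc.intervalIntegrable _ _)).symm
  have hne : pm m ≠ 0 := by
    intro h
    rw [h, Polynomial.eval_zero] at h2
    have : (0 : ℝ) < (m : ℝ) ^ 2 := by positivity
    linarith
  have h6 : 0 < ∫ x in u..1, (pm m).eval x ^ 2 := by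
    obtain ⟨c, hc1, hc2⟩ : ∃ c ∈ Ioo u 1, c ∉ (pm m).roots.toFinset :=
      (Set.Ioo_infinite hu1).exists_notMem_finset _
    refine intervalIntegral.integral_pos hu1 hc.continuousOn (fun x _ => sq_nonneg _) ⟨c, Ioo_subset_Icc_self hc1, ?_⟩
    have : (pm m).eval c ≠ 0 := by
      intro h0
      apply hc2
      rw [Multiset.mem_toFinset]
      exact (Polynomial.mem_roots hne).2 h0
    positivity
  linarith

section sums

variable (hLEG : S_LEG) (hPOS : S_POS) (h2 : S_sum2) (hRH : RiemannHypothesis)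
include hLEG hPOS h2 hRH

theorem PU_sum {u : ℝ} (h0 : 0 ≤ u) (h1 : u ≤ 1) :
    Summable (fun g : Go => (∫ x in (0 : ℝ)..u, (pm (mz (cl g))).eval x ^ 2) / (1 / 4 + (g : ℝ) ^ 2)) := by
  refine Summable.of_nonneg_of_le (fun g => ?_) (fun g => ?_) (summ_line hRH h2)
  · exact div_nonneg (intervalIntegral.integral_nonneg h0 fun x _ => sq_nonneg _) (by positivity)
  · have h4 : (0 : ℝ) < 1 / 4 + (g : ℝ) ^ 2 := by positivity
    have h5 : ∫ x in (0 : ℝ)..u, (pm (mz (cl g))).eval x ^ 2 ≤ (mz (cl g) : ℝ) ^ 2 := by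
      rcases h1.eq_or_lt with h6 | h6
      · rw [h6]; exact (hLEG _).2.2.2.1.le
      · exact (pm_part_lt hLEG (hPOS.1 g) h6).le
    gcongr

theorem PU_ge {u : ℝ} (h0 : 0 ≤ u) (h1 : u ≤ 1) : u * BB ≤ PU u := by
  unfold BB PU
  rw [← tsum_mul_left]
  refine Summable.tsum_le_tsum (fun g => ?_) ((summ_line hRH h2).mul_left u) (PU_sum hLEG hPOS h2 hRH h0 h1)
  have h4 : (0 : ℝ) < 1 / 4 + (g : ℝ) ^ 2 := by positivity
  rw [← mul_div_assoc]
  have h5 := pm_place_le hLEG (mz (cl g)) h0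
  gcongr

theorem PU_gt {u : ℝ} (h0 : 0 < u) (h1 : u < 1) (hs : ¬ Simp) : u * BB < PU u := by
  unfold Simp at hs
  push Not at hs
  obtain ⟨g0, hg0⟩ := hs
  have hm : 2 ≤ mz (cl g0) := by
    have := hPOS.1 g0
    omega
  unfold BB PU
  rw [← tsum_mul_left]
  refine Summable.tsum_lt_tsum (i := g0) (fun g => ?_) ?_ ((summ_line hRH h2).mul_left u)
    (PU_sum hLEG hPOS h2 hRH h0.le h1.le)
  · have h4 : (0 : ℝ) < 1 / 4 + (g : ℝ) ^ 2 := by positivity
    show u * ((mz (cl g) : ℝ) ^ 2 / (1 / 4 + (g : ℝ) ^ 2)) ≤ _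
    rw [← mul_div_assoc]
    have h5 := pm_place_le hLEG (mz (cl g)) h0.le
    gcongr
  · have h4 : (0 : ℝ) < 1 / 4 + (g0 : ℝ) ^ 2 := by positivity
    show u * ((mz (cl g0) : ℝ) ^ 2 / (1 / 4 + (g0 : ℝ) ^ 2)) < _
    rw [← mul_div_assoc]
    have h5 := pm_place_lt hLEG hm h0 h1
    gcongr

theorem PU_lt_one {u : ℝ} (h0 : 0 ≤ u) (h1 : u < 1) : PU u < BB := by
  have hs := summ_line hRH h2
  have hle : ∀ g : Go, (∫ x in (0 : ℝ)..u, (pm (mz (cl g))).eval x ^ 2) / (1 / 4 + (g : ℝ) ^ 2) <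
      (mz (cl g) : ℝ) ^ 2 / (1 / 4 + (g : ℝ) ^ 2) := by
    intro g
    have h3 := pm_part_lt hLEG (hPOS.1 g) h1
    have h4 : (0 : ℝ) < 1 / 4 + (g : ℝ) ^ 2 := by positivity
    gcongr
  have hne : Nonempty Go := by
    by_contra hno
    rw [not_nonempty_iff] at hno
    have : BB = 0 := by unfold BB; exact tsum_empty
    have h5 := (hPOS.2 hRH).1
    linarith
  obtain ⟨g0⟩ := hne
  exact Summable.tsum_lt_tsum (fun g => (hle g).le) (hle g0) (PU_sum hLEG hPOS h2 hRH h0 h1.le) hs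

theorem D2_pos (hs : ¬ Simp) : 0 < D2 := by
  unfold D2
  have hnn : ∀ g : Go, 0 ≤ 2 * (mz (cl g) : ℝ) * ((mz (cl g) : ℝ) - 1) / (1 / 4 + (g : ℝ) ^ 2) := by
    intro g
    have h3 : (1 : ℝ) ≤ mz (cl g) := by exact_mod_cast hPOS.1 g
    exact div_nonneg (mul_nonneg (by linarith) (by linarith)) (by positivity)
  have hsum : Summable (fun g : Go => 2 * (mz (cl g) : ℝ) * ((mz (cl g) : ℝ) - 1) / (1 / 4 + (g : ℝ) ^ 2)) := by
    refine Summable.of_nonneg_of_le hnn (fun g => ?_) ((summ_line hRH h2).mul_left 2)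
    have h3 : (1 : ℝ) ≤ mz (cl g) := by exact_mod_cast hPOS.1 g
    have h4 : (0 : ℝ) < 1 / 4 + (g : ℝ) ^ 2 := by positivity
    rw [← mul_div_assoc]
    refine div_le_div_of_nonneg_right ?_ h4.le
    nlinarith
  unfold Simp at hs
  push Not at hs
  obtain ⟨g0, hg0⟩ := hs
  refine hsum.tsum_pos hnn g0 ?_
  have hm : (2 : ℝ) ≤ mz (cl g0) := by
    have h5 := hPOS.1 g0
    exact_mod_cast (by omega : 2 ≤ mz (cl g0))
  have h4 : (0 : ℝ) < 1 / 4 + (g0 : ℝ) ^ 2 := by positivity
  exact div_pos (mul_pos (by linarith) (by linarith)) h4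

end sums

section opt

variable (hXW : S_XW) (hCOR : S_COR1) (hPOS : S_POS) (hLEG : S_LEG) (hs : S_sum2) (hRH : RiemannHypothesis)
  {lam : ℕ → ℝ} {a : ℕ → (ℝ →₀ ℝ)} (ho : OptR lam a)
include hXW hCOR hPOS hLEG hs hRH ho

/-- the laws decide on the simplicity, for every asymptotically optimal family -/
theorem tfae_opt : List.TFAE [Simp,
    Tendsto (fun j => gapR (lam j) (a j)) atTop (𝓝 0),
    ∀ ε : ℝ, 0 < ε → ∃ᶠ j in atTop, gapR (lam j) (a j) < ε,
    ∀ u : ℝ, 0 ≤ u → u ≤ 1 → Tendsto (fun j => shareR (lam j) (a j) u) atTop (𝓝 u),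
    ∃ u : ℝ, 0 < u ∧ u < 1 ∧ ∀ ε : ℝ, 0 < ε → ∃ᶠ j in atTop, shareR (lam j) (a j) u < u + ε] := by
  have hg : Tendsto (fun j => gapR (lam j) (a j)) atTop (𝓝 D2) := gapR_lim hXW hCOR hRH ho
  have hB := (hPOS.2 hRH).1
  tfae_have 1 → 2 := by
    intro h
    rw [D2_simp h] at hg
    exact hg
  tfae_have 2 → 3 := by
    intro h ε hε
    exact (h.eventually_lt_const hε).frequently
  tfae_have 3 → 1 := by
    intro h
    by_contra hno
    have h1 := D2_pos hLEG hPOS hs hRH hno
    obtain ⟨j, hj1, hj2⟩ := ((h (D2 / 2) (by linarith)).and_eventually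
      (hg.eventually_const_lt (by linarith : D2 / 2 < D2))).exists
    linarith
  tfae_have 1 → 4 := by
    intro h u h0 h1
    have h6 : Tendsto (fun j => shareR (lam j) (a j) u) atTop (𝓝 (PU u / BB)) :=
      shareR_lim hXW hCOR hPOS hRH ho h0 h1
    rw [PU_simp h, mul_div_cancel_right₀ _ hB.ne'] at h6
    exact h6
  tfae_have 4 → 5 := by
    intro h
    refine ⟨1 / 2, by norm_num, by norm_num, fun ε hε => ?_⟩
    exact ((h (1 / 2) (by norm_num) (by norm_num)).eventually_lt_const (by linarith)).frequently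
  tfae_have 5 → 1 := by
    rintro ⟨u, h0, h1, h⟩
    by_contra hno
    have h6 : Tendsto (fun j => shareR (lam j) (a j) u) atTop (𝓝 (PU u / BB)) :=
      shareR_lim hXW hCOR hPOS hRH ho h0.le h1.le
    have h7 := PU_gt hLEG hPOS hs hRH h0 h1 hno
    have h8 : u < PU u / BB := by rw [lt_div_iff₀ hB]; exact h7
    obtain ⟨j, hj1, hj2⟩ := ((h ((PU u / BB - u) / 2) (by linarith)).and_eventually
      (h6.eventually_const_lt (by linarith : u + (PU u / BB - u) / 2 < PU u / BB))).exists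
    linarith
  tfae_finish

end opt

end Pool.Agent.Q260.OE
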