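import Pool.Agent.Q260.OE.Fin3

set_option autoImplicit false

/-!
# Project OE: the equivalences in their strongest form
-/

namespace Pool.Agent.Q260.OE

open Complex MeasureTheory Filter Topology Set
open Pool.Agent.Q286.BD (cl mz dif JJ difR JR S_up S_low S_sum2 summ_line)
open Pool.Agent.Q260.GM (ph L2psi)

section best

variable (hNT : S_NT) (hXW : S_XW) (hCOR : S_COR1) (hPOS : S_POS) (hFRQ : S_FRQ) (hLEG : S_LEG) (hCOE : S_COE)
  (h1 : S_NR1) (h2 : S_NR2) (h3 : S_NR3) (h4 : S_NR4) (hup : S_up) (hlow : S_low) (hs : S_sum2)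
  {a : ℕ → (ℝ →₀ ℝ)} (hb : ∀ N, BestR N (a N))
include hNT hXW hCOR hPOS hLEG h1 h2 hup hlow hs hb

theorem rh_gap {C : ℝ} (h : ∃ᶠ N : ℕ in atTop, gapR (1 / (N : ℝ)) (a N) ≤ C) : RiemannHypothesis := by
  by_contra hno
  obtain ⟨c, hc, h5⟩ := no_gap hNT hXW h1 hb hno
  have h6 : ∀ᶠ N : ℕ in atTop, C < c * Real.log N := (log_top.const_mul_atTop hc).eventually_gt_atTop C
  obtain ⟨N, ⟨hN1, hN2⟩, hN3⟩ := ((h.and_eventually h5).and_eventually h6).exists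
  linarith

/-- the list of the equivalences with simple zeros -/
theorem tfae2S : List.TFAE [RiemannHypothesis ∧ Simp,
    Tendsto (fun N : ℕ => gapR (1 / (N : ℝ)) (a N)) atTop (𝓝 0),
    ∀ ε : ℝ, 0 < ε → ∃ᶠ N : ℕ in atTop, gapR (1 / (N : ℝ)) (a N) < ε,
    ∀ u : ℝ, 0 ≤ u → u ≤ 1 → Tendsto (fun N : ℕ => shareR (1 / (N : ℝ)) (a N) u) atTop (𝓝 u),
    ∃ u : ℝ, 0 < u ∧ u < 1 ∧ ∀ ε : ℝ, 0 < ε → ∃ᶠ N : ℕ in atTop, shareR (1 / (N : ℝ)) (a N) u < u + ε] := by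
  have key : RiemannHypothesis → _ := fun hRH =>
    tfae_opt hXW hCOR hPOS hLEG hs hRH (best_optR hNT hb hRH hup hlow hs)
  tfae_have 1 → 2 := fun h => ((key h.1).out 0 1).1 h.2
  tfae_have 2 → 3 := by
    intro h ε hε
    exact (h.eventually_lt_const hε).frequently
  tfae_have 3 → 1 := by
    intro h
    have hRH := rh_gap hNT hXW hCOR hPOS hLEG h1 h2 hup hlow hs hb (C := 1) ((h 1 one_pos).mono fun N hN => hN.le)
    exact ⟨hRH, ((key hRH).out 2 0).1 h⟩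
  tfae_have 1 → 4 := fun h => ((key h.1).out 0 3).1 h.2
  tfae_have 4 → 5 := by
    intro h
    refine ⟨1 / 2, by norm_num, by norm_num, fun ε hε => ?_⟩
    exact ((h (1 / 2) (by norm_num) (by norm_num)).eventually_lt_const (by linarith)).frequently
  tfae_have 5 → 1 := by
    rintro ⟨u, h5, h6, h⟩
    have hRH : RiemannHypothesis := by
      by_contra hno
      have h7 := no_share hNT hXW h2 hb hno u h5
      obtain ⟨N, hN1, hN2⟩ := ((h ((1 - u) / 2) (by linarith)).and_eventually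
        (h7.eventually_const_lt (by linarith : u + (1 - u) / 2 < 1))).exists
      linarith
    have e : (∃ u : ℝ, 0 < u ∧ u < 1 ∧ ∀ ε : ℝ, 0 < ε → ∃ᶠ N : ℕ in atTop, shareR (1 / (N : ℝ)) (a N) u < u + ε) → Simp :=
      ((key hRH).out 4 0).1
    exact ⟨hRH, e ⟨u, h5, h6, h⟩⟩
  tfae_finish

include hFRQ hCOE h3 h4

/-- the list of the equivalences with the Riemann hypothesis -/
theorem tfae1S : List.TFAE [RiemannHypothesis,
    ∃ C : ℝ, ∀ N : ℕ, 2 ≤ N → gapR (1 / (N : ℝ)) (a N) ≤ C,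
    ∃ C : ℝ, ∃ᶠ N : ℕ in atTop, gapR (1 / (N : ℝ)) (a N) ≤ C,
    ∀ n : ℕ, 1 ≤ n → Tendsto (fun N : ℕ => a N (1 / (n : ℝ))) atTop (𝓝 (-((ArithmeticFunction.moebius n : ℤ) : ℝ))),
    ∃ u : ℝ, 0 < u ∧ ¬ Tendsto (fun N : ℕ => shareR (1 / (N : ℝ)) (a N) u) atTop (𝓝 1),
    ∀ α β : ℝ, α < β → (∀ t ∈ Icc α β, riemannZeta (cl t) ≠ 0) →
      Tendsto (fun N : ℕ => freqR (a N) α β) atTop (𝓝 0)] := by
  have key := tfae1R hNT hXW hCOR hPOS hFRQ hLEG hCOE h1 h2 h3 h4 hup hlow hs hb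
  tfae_have 1 ↔ 2 := key.out 0 1
  tfae_have 1 ↔ 3 := key.out 0 2
  tfae_have 1 ↔ 4 := key.out 0 3
  tfae_have 1 → 5 := fun h => ⟨1 / 2, by norm_num, (key.out 0 4).1 h⟩
  tfae_have 5 → 1 := by
    rintro ⟨u, hu, h⟩
    by_contra hno
    exact h (no_share hNT hXW h2 hb hno u hu)
  tfae_have 1 ↔ 6 := key.out 0 5
  tfae_finish

end best

end Pool.Agent.Q260.OE
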