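import Pool.Agent.Q260.OE.Fin4
import Pool.Agent.Q260.OE.Stm5
import Pool.Agent.Q193.OE.STR
import Pool.Agent.Q210.OE.Xw

set_option autoImplicit false

/-!
# Project OE: universal laws for all approximations of the right order, and the law in phase space, in the variable `x`
-/

namespace Pool.Agent.Q260.OE

open Complex MeasureTheory Filter Topology Set
open Pool.Agent.Q286.BD (cl mz dif JJ difR JR S_up S_low S_sum2 summ_line S_lowR S_intR S_nrhR)
open Pool.Agent.Q260.GM (ph L2psi)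

/-! ## affine combinations of approximations -/

theorem difR_affine (a b : ℝ →₀ ℝ) (τ x : ℝ) :
    difR (b + τ • (a - b)) x = difR b x + τ * (difR a x - difR b x) := by
  have e : ∀ c : ℝ →₀ ℝ, (c.sum fun θ y => y * Int.fract (θ / x)) =
      Finsupp.linearCombination ℝ (fun θ => Int.fract (θ / x)) c := fun c => rfl
  unfold difR
  rw [e, e, e, map_add, map_smul, map_sub, smul_eq_mul]
  ring

theorem supp_affine {a b : ℝ →₀ ℝ} {lam : ℝ} (ha : ∀ θ ∈ a.support, lam ≤ θ ∧ θ ≤ 1)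
    (hb : ∀ θ ∈ b.support, lam ≤ θ ∧ θ ≤ 1) (τ : ℝ) : ∀ θ ∈ (b + τ • (a - b)).support, lam ≤ θ ∧ θ ≤ 1 := by
  classical
  intro θ hθ
  by_cases h1 : θ ∈ a.support
  · exact ha θ h1
  by_cases h2 : θ ∈ b.support
  · exact hb θ h2
  exfalso
  rw [Finsupp.notMem_support_iff] at h1 h2
  rw [Finsupp.mem_support_iff] at hθ
  apply hθ
  simp [h1, h2]

/-- the squared distance of two errors -/
noncomputable def DD2 (a b : ℝ →₀ ℝ) : ℝ := ∫ x in Ioi (0 : ℝ), (difR a x - difR b x) ^ 2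

/-- the mixed term -/
noncomputable def CC (a b : ℝ →₀ ℝ) : ℝ := ∫ x in Ioi (0 : ℝ), difR b x * (difR a x - difR b x)

theorem quad (h3 : S_intR) {a b : ℝ →₀ ℝ} (ha : ∀ θ ∈ a.support, 0 < θ ∧ θ ≤ 1) (hb : ∀ θ ∈ b.support, 0 < θ ∧ θ ≤ 1) :
    (∀ τ : ℝ, JR (b + τ • (a - b)) = JR b + 2 * τ * CC a b + τ ^ 2 * DD2 a b) ∧
    DD2 a b ≤ 2 * JR a + 2 * JR b ∧ 0 ≤ DD2 a b := by
  have ma := Pool.Agent.Q193.OE.meas_dif a
  have mb := Pool.Agent.Q193.OE.meas_dif b
  have la : MemLp (difR a) 2 (volume.restrict (Ioi 0)) :=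
    (memLp_two_iff_integrable_sq ma.aestronglyMeasurable).2 (h3 a ha)
  have lb : MemLp (difR b) 2 (volume.restrict (Ioi 0)) :=
    (memLp_two_iff_integrable_sq mb.aestronglyMeasurable).2 (h3 b hb)
  have ld := la.sub lb
  have id2 : IntegrableOn (fun x => (difR a x - difR b x) ^ 2) (Ioi 0) := ld.integrable_sq
  have ic : IntegrableOn (fun x => difR b x * (difR a x - difR b x)) (Ioi 0) := lb.integrable_mul ld
  have ib := h3 b hb
  have ia := h3 a ha
  refine ⟨fun τ => ?_, ?_, integral_nonneg fun x => sq_nonneg _⟩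
  · unfold JR CC DD2
    have e : ∀ x, difR (b + τ • (a - b)) x ^ 2 = difR b x ^ 2 + 2 * τ * (difR b x * (difR a x - difR b x)) +
        τ ^ 2 * (difR a x - difR b x) ^ 2 := by
      intro x
      rw [difR_affine]
      ring
    simp only [e]
    have i1 : Integrable (fun x => difR b x ^ 2 + 2 * τ * (difR b x * (difR a x - difR b x))) (volume.restrict (Ioi 0)) :=
      ib.add (ic.const_mul _)
    have i2 : Integrable (fun x => τ ^ 2 * (difR a x - difR b x) ^ 2) (volume.restrict (Ioi 0)) := id2.const_mul _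
    rw [integral_add i1 i2, integral_add ib (ic.const_mul _), integral_const_mul, integral_const_mul]
  · unfold DD2 JR
    rw [← integral_const_mul, ← integral_const_mul, ← integral_add (ia.const_mul _) (ib.const_mul _)]
    refine integral_mono id2 ((ia.const_mul _).add (ib.const_mul _)) fun x => ?_
    show (difR a x - difR b x) ^ 2 ≤ 2 * difR a x ^ 2 + 2 * difR b x ^ 2
    nlinarith [sq_nonneg (difR a x + difR b x)]

/-- the lower bound with the full sum -/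
theorem low_ev (hl : S_lowR) (h2 : S_sum2) (hRH : RiemannHypothesis) {Lf : ℕ → ℝ} (hL : Tendsto Lf atTop atTop)
    {ε : ℝ} (hε : 0 < ε) : ∀ᶠ j in atTop, ∀ a : ℝ →₀ ℝ, (∀ θ ∈ a.support, Real.exp (-(Lf j)) ≤ θ ∧ θ ≤ 1) →
      BB - ε ≤ Lf j * JR a := by
  have hs := (summ_line hRH h2).hasSum
  have h4 : ∀ᶠ S : Finset Go in atTop, BB - ε / 2 <
      ∑ g ∈ S, (mz (cl g) : ℝ) ^ 2 / (1 / 4 + (g : ℝ) ^ 2) := hs.eventually_const_lt (by
        show BB - ε / 2 < BB
        linarith)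
  obtain ⟨S, hS⟩ := h4.exists
  obtain ⟨δ, hδ, -, h5⟩ := hl (S.map (Function.Embedding.subtype _)) (by
    intro g hg
    rw [Finset.mem_map] at hg
    obtain ⟨g', -, rfl⟩ := hg
    exact g'.2) (ε / 2) (by linarith)
  rw [Finset.sum_map] at h5
  have h6 : Tendsto (fun j => Real.exp (-(Lf j))) atTop (𝓝 0) :=
    Real.tendsto_exp_atBot.comp (tendsto_neg_atTop_atBot.comp hL)
  filter_upwards [h6.eventually_lt_const hδ] with j hj a ha
  have h7 := h5 _ (Real.exp_pos _) hj a ha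
  have h9 : Real.log (1 / Real.exp (-(Lf j))) = Lf j := by rw [one_div, Real.log_inv, Real.log_exp, neg_neg]
  rw [h9] at h7
  have h8 : ∑ x ∈ S, (mz (cl ((Function.Embedding.subtype _) x)) : ℝ) ^ 2 / (1 / 4 + ((Function.Embedding.subtype _) x) ^ 2) =
    ∑ g ∈ S, (mz (cl g) : ℝ) ^ 2 / (1 / 4 + (g : ℝ) ^ 2) := rfl
  rw [h8] at h7
  linarith

/-- **Pythagoras**: the excess of the error of any approximation of the right order is its distance from the optimal one -/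
theorem pyt (hl : S_lowR) (h2 : S_sum2) (h3 : S_intR) (hRH : RiemannHypothesis) {Lf : ℕ → ℝ} {af bf : ℕ → (ℝ →₀ ℝ)}
    (ha : Good Lf af) (hb : Fam Lf bf) :
    Tendsto (fun j => Lf j * DD2 (af j) (bf j) - Lf j * JR (af j)) atTop (𝓝 (-BB)) := by
  obtain ⟨C, hC⟩ := ha.bdd
  have pa : ∀ j, ∀ θ ∈ (af j).support, 0 < θ ∧ θ ≤ 1 := fun j θ hθ =>
    ⟨(Real.exp_pos _).trans_le (ha.supp j θ hθ).1, (ha.supp j θ hθ).2⟩
  have pb : ∀ j, ∀ θ ∈ (bf j).support, 0 < θ ∧ θ ≤ 1 := fun j θ hθ =>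
    ⟨(Real.exp_pos _).trans_le (hb.supp j θ hθ).1, (hb.supp j θ hθ).2⟩
  set Q : ℝ := 2 * |C| + 2 * (|BB| + 1) with hQ
  have hQ0 : 0 < Q := by positivity
  have hc : Tendsto (fun j => Lf j * CC (af j) (bf j)) atTop (𝓝 0) := by
    rw [Metric.tendsto_atTop']
    intro ε hε
    set t : ℝ := ε / Q with ht
    have ht0 : 0 < t := by positivity
    have htQ : t * Q = ε := by rw [ht]; field_simp
    set η : ℝ := t * ε / 8 with hη
    have hη0 : 0 < η := by positivity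
    have e1 := low_ev hl h2 hRH ha.tend hη0
    have e2 : ∀ᶠ j in atTop, Lf j * JR (bf j) < BB + η := hb.opt.eventually_lt_const (by linarith)
    have e3 : ∀ᶠ j in atTop, Lf j * JR (bf j) < BB + 1 := hb.opt.eventually_lt_const (by linarith)
    obtain ⟨j0, hj0⟩ := eventually_atTop.1 (e1.and (e2.and (e3.and (ha.tend.eventually_gt_atTop 0))))
    refine ⟨j0, fun j hj => ?_⟩
    obtain ⟨k1, k2, k3, k4⟩ := hj0 j hj.le
    obtain ⟨q1, q2, q3⟩ := quad h3 (pa j) (pb j)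
    have r1 := k1 _ (supp_affine (ha.supp j) (hb.supp j) t)
    have r2 := k1 _ (supp_affine (ha.supp j) (hb.supp j) (-t))
    rw [q1] at r1 r2
    have r3 : Lf j * DD2 (af j) (bf j) ≤ Q := by
      have := mul_le_mul_of_nonneg_left q2 k4.le
      have h7 := hC j
      have h8 := le_abs_self C
      have h9 := le_abs_self BB
      have : Lf j * DD2 (af j) (bf j) ≤ 2 * (Lf j * JR (af j)) + 2 * (Lf j * JR (bf j)) := by linarith
      rw [hQ]
      linarith
    have r4 : t ^ 2 * (Lf j * DD2 (af j) (bf j)) ≤ t * ε := by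
      calc t ^ 2 * (Lf j * DD2 (af j) (bf j)) ≤ t ^ 2 * Q := mul_le_mul_of_nonneg_left r3 (by positivity)
        _ = t * (t * Q) := by ring
        _ = t * ε := by rw [htQ]
    rw [Real.dist_eq, sub_zero, abs_lt]
    have s1 : -(t * ε + 2 * η) ≤ 2 * t * (Lf j * CC (af j) (bf j)) := by nlinarith
    have s2 : 2 * t * (Lf j * CC (af j) (bf j)) ≤ t * ε + 2 * η := by nlinarith
    have s3 : t * ε + 2 * η < 2 * t * ε := by rw [hη]; nlinarith [mul_pos ht0 hε]
    constructor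
    · by_contra hcon
      push Not at hcon
      have : 2 * t * (Lf j * CC (af j) (bf j)) ≤ 2 * t * (-ε) := mul_le_mul_of_nonneg_left hcon (by positivity)
      nlinarith
    · by_contra hcon
      push Not at hcon
      have : 2 * t * ε ≤ 2 * t * (Lf j * CC (af j) (bf j)) := mul_le_mul_of_nonneg_left hcon (by positivity)
      nlinarith
  have e : ∀ j, Lf j * DD2 (af j) (bf j) - Lf j * JR (af j) = -(Lf j * JR (bf j)) - 2 * (Lf j * CC (af j) (bf j)) := by
    intro j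
    obtain ⟨q1, -, -⟩ := quad h3 (pa j) (pb j)
    have h5 := q1 1
    have h6 : bf j + (1 : ℝ) • (af j - bf j) = af j := by
      rw [one_smul]
      abel
    rw [h6] at h5
    rw [h5]
    ring
  simp only [e]
  have h7 := (hb.opt.neg).sub (hc.const_mul 2)
  simpa using h7

/-! ## families in the variable `x` -/

/-- an error of the right order -/
def GoodR (lam : ℕ → ℝ) (a : ℕ → (ℝ →₀ ℝ)) : Prop :=
  Tendsto lam atTop (𝓝[>] 0) ∧ (∀ᶠ j in atTop, ∀ θ ∈ (a j).support, lam j ≤ θ ∧ θ ≤ 1) ∧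
    ∃ C : ℝ, ∀ᶠ j in atTop, JR (a j) * Real.log (1 / lam j) ≤ C

theorem OptR.good {lam : ℕ → ℝ} {a : ℕ → (ℝ →₀ ℝ)} (h : OptR lam a) : GoodR lam a :=
  ⟨h.1, h.2.1, BB + 1, (h.2.2.eventually_lt_const (by linarith)).mono fun _ hj => le_of_lt hj⟩

theorem afix_ev' {lam : ℕ → ℝ} {a : ℕ → (ℝ →₀ ℝ)} (h : GoodR lam a) : ∀ᶠ j in atTop, afix lam a j = a j := by
  filter_upwards [lam_ev h.1, h.2.1] with j h1 h2
  unfold afix
  rw [if_pos ⟨h1.1, h2⟩]

theorem goodR {lam : ℕ → ℝ} {a : ℕ → (ℝ →₀ ℝ)} (h : GoodR lam a) :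
    Good (fun j => Real.log (1 / lam j)) (afix lam a) where
  tend := log_lam h.1
  supp := by
    intro j θ hθ
    unfold afix at hθ
    split_ifs at hθ with h1
    · rw [lam_exp h1.1]
      exact h1.2 θ hθ
    · simp at hθ
  bdd := by
    obtain ⟨C, hC⟩ := h.2.2
    have h1 : IsBoundedUnder (· ≤ ·) atTop (fun j => Real.log (1 / lam j) * JR (afix lam a j)) := by
      refine ⟨C, ?_⟩
      rw [eventually_map]
      filter_upwards [hC, afix_ev' h] with j h2 h3
      rw [h3, mul_comm]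
      exact h2
    obtain ⟨C', hC'⟩ := h1.bddAbove_range
    exact ⟨C', fun j => hC' ⟨j, rfl⟩⟩

/-- the scalar product of the error and the prime error, for all approximations of the right order -/
theorem pairR_good (hPAI : S_PAI) (hXW : S_XW) (hRH : RiemannHypothesis) {lam : ℕ → ℝ} {a : ℕ → (ℝ →₀ ℝ)}
    (ho : GoodR lam a) : Tendsto (fun j => ∫ x in Ioc (lam j) 1, difR (a j) x * PE (1 / x)) atTop
    (𝓝 (∑' g : Go, (mz (cl g) : ℝ) / (1 / 4 + (g : ℝ) ^ 2))) := by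
  refine Tendsto.congr' ?_ (hPAI hRH _ _ (goodR ho))
  filter_upwards [afix_ev' ho, lam_ev ho.1] with j h1 h2
  rw [pairR_eq h2.1 h2.2 hXW, h1]

theorem pytR (hl : S_lowR) (h2 : S_sum2) (h3 : S_intR) (hRH : RiemannHypothesis) {lam : ℕ → ℝ} {a b : ℕ → (ℝ →₀ ℝ)}
    (ha : GoodR lam a) (hb : OptR lam b) :
    Tendsto (fun j => Real.log (1 / lam j) * (∫ x in Ioi (0 : ℝ), (difR (a j) x - difR (b j) x) ^ 2) -
      JR (a j) * Real.log (1 / lam j)) atTop (𝓝 (-BB)) := by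
  refine Tendsto.congr' ?_ (pyt hl h2 h3 hRH (goodR ha) (famR hb))
  filter_upwards [afix_ev' ha, afix_ev hb] with j h4 h5
  rw [h4, h5, mul_comm (JR (a j))]
  rfl

/-- families with an error of the right order exist only under the Riemann hypothesis -/
theorem GoodR.rh (hn : S_nrhR) {lam : ℕ → ℝ} {a : ℕ → (ℝ →₀ ℝ)} (h : GoodR lam a) : RiemannHypothesis := by
  by_contra hno
  obtain ⟨c, hc, h1⟩ := hn hno
  obtain ⟨C, hC⟩ := h.2.2
  have h2 : ∀ᶠ j in atTop, C < c * Real.log (1 / lam j) :=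
    ((log_lam h.1).const_mul_atTop hc).eventually_gt_atTop C
  obtain ⟨j, hj1, hj2, hj3, hj4, hj5⟩ := (hC.and (h2.and (h.2.1.and ((lam_ev h.1).and
    ((log_lam h.1).eventually_gt_atTop 0))))).exists
  have h3 := h1 (a j) fun θ hθ => ⟨hj4.1.trans_le (hj3 θ hθ).1, (hj3 θ hθ).2⟩
  have h4 := mul_le_mul_of_nonneg_right h3 hj5.le
  linarith

/-- the coefficients of the approximations of the right order -/
theorem coaR_good (hCOA : S_COA) {lam : ℕ → ℝ} {a : ℕ → (ℝ →₀ ℝ)} (ho : GoodR lam a) {δ : ℝ} (hδ : 0 < δ) :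
    Tendsto (fun j => ∫ x in Ioc δ 1, (tl (a j) x + MM (1 / x)) ^ 2) atTop (𝓝 0) := by
  obtain ⟨C, hC, h⟩ := hCOA δ hδ
  have h1 : Tendsto (fun j => JR (a j)) atTop (𝓝 0) := by
    obtain ⟨K, hK⟩ := ho.2.2
    refine squeeze_zero' (g := fun j => K / Real.log (1 / lam j))
      (Eventually.of_forall fun j => integral_nonneg fun x => sq_nonneg _) ?_
      (tendsto_const_nhds.div_atTop (log_lam ho.1))
    filter_upwards [hK, (log_lam ho.1).eventually_gt_atTop 0] with j h2 h3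
    rw [le_div_iff₀ h3]
    exact h2
  have h3 : Tendsto (fun j => C * JR (a j)) atTop (𝓝 0) := by simpa using h1.const_mul C
  refine squeeze_zero' (Eventually.of_forall fun j => integral_nonneg fun x => sq_nonneg _) ?_ h3
  filter_upwards [ho.2.1, lam_ev ho.1] with j h4 h5
  exact h (a j) fun θ hθ => ⟨lt_of_lt_of_le h5.1 (h4 θ hθ).1, (h4 θ hθ).2⟩

/-! ## phase space -/

/-- the transform of `A err - B (prime error) / log (1/λ)` on `λ^v < x ≤ λ^u` -/
noncomputable def WX (lam : ℝ) (a : ℝ →₀ ℝ) (A B u v t : ℝ) : ℂ :=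
  ∫ x in Ioc (lam ^ v) (lam ^ u), ((A * difR a x - B * PE (1 / x) / Real.log (1 / lam) : ℝ) : ℂ) * (x : ℂ) ^ (cl t - 1)

theorem lam_pow {lam : ℝ} (h0 : 0 < lam) (u : ℝ) : lam ^ u = Real.exp (-(u * Real.log (1 / lam))) := by
  rw [Real.rpow_def_of_pos h0, one_div, Real.log_inv]
  congr 1
  ring

theorem sub_setC (f : ℝ → ℂ) (S : Set ℝ) (hS : MeasurableSet S) :
    ∫ x in (fun u : ℝ => Real.exp (-u)) '' S, f x = ∫ w in S, f (Real.exp (-w)) * (Real.exp (-w) : ℂ) := by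
  rw [integral_image_eq_integral_abs_deriv_smul hS (Pool.Agent.Q210.OE.exp_neg_deriv S)
    (Pool.Agent.Q210.OE.exp_neg_inj S) f]
  refine setIntegral_congr_fun hS fun w _ => ?_
  show |-Real.exp (-w)| • f (Real.exp (-w)) = f (Real.exp (-w)) * (Real.exp (-w) : ℂ)
  rw [abs_neg, abs_of_pos (Real.exp_pos _), Complex.real_smul, mul_comm]

theorem WX_eq {lam : ℝ} (h0 : 0 < lam) (h1 : lam ≤ 1) (a : ℝ →₀ ℝ) (A B : ℝ) {u v : ℝ} (huv : u ≤ v) (t : ℝ) :
    WX lam a A B u v t = WT a A (-B) u v (Real.log (1 / lam)) t := by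
  have hl : 0 ≤ Real.log (1 / lam) := Real.log_nonneg (by rw [le_div_iff₀ h0]; linarith)
  unfold WX WT
  rw [lam_pow h0 v, lam_pow h0 u, ← Pool.Agent.Q210.OE.im_Ico, sub_setC _ _ measurableSet_Ico,
    intervalIntegral.integral_of_le (mul_le_mul_of_nonneg_right huv hl), integral_Ico_eq_integral_Ioo,
    integral_Ioc_eq_integral_Ioo]
  refine setIntegral_congr_fun measurableSet_Ioo fun w _ => ?_
  show ((A * difR a (Real.exp (-w)) - B * PE (1 / Real.exp (-w)) / Real.log (1 / lam) : ℝ) : ℂ) *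
    ((Real.exp (-w) : ℝ) : ℂ) ^ (cl t - 1) * (Real.exp (-w) : ℂ) = _
  have e1 : ((Real.exp (-w) : ℝ) : ℂ) ^ (cl t - 1) * ((Real.exp (-w) : ℝ) : ℂ) = cexp (-(cl t * w)) := by
    rw [Complex.cpow_def_of_ne_zero (by exact_mod_cast (Real.exp_pos _).ne'), ← Complex.ofReal_log (Real.exp_pos _).le,
      Real.log_exp, Complex.ofReal_exp, ← Complex.exp_add]
    congr 1
    push_cast
    ring
  rw [mul_assoc, e1, PE_exp]
  congr 2
  unfold De
  ring

theorem phaseR_lim (hPHS : S_PHS) (hRH : RiemannHypothesis) {lam : ℕ → ℝ} {a : ℕ → (ℝ →₀ ℝ)} (ho : OptR lam a)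
    (A B : ℝ) {u v α β : ℝ} (h0 : 0 ≤ u) (h1 : u ≤ v) (h2 : v ≤ 1) (hαβ : α < β) (hα : riemannZeta (cl α) ≠ 0)
    (hβ : riemannZeta (cl β) ≠ 0) :
    Tendsto (fun j => Real.log (1 / lam j) * (1 / (2 * Real.pi) * ∫ t in α..β, ‖WX (lam j) (a j) A B u v t‖ ^ 2)) atTop
      (𝓝 (∑' g : Go, if α < (g : ℝ) ∧ (g : ℝ) < β then
        (∫ x in u..v, (A * (pm (mz (cl g))).eval x - B * (mz (cl g) : ℝ)) ^ 2) / (1 / 4 + (g : ℝ) ^ 2) else 0)) := by
  have h := hPHS hRH _ _ (famR ho) A (-B) u v α β h0 h1 h2 hαβ hα hβ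
  have e : ∀ g : Go, (∫ x in u..v, (A * (pm (mz (cl g))).eval x + -B * (mz (cl g) : ℝ)) ^ 2) =
      ∫ x in u..v, (A * (pm (mz (cl g))).eval x - B * (mz (cl g) : ℝ)) ^ 2 := by
    intro g
    refine intervalIntegral.integral_congr fun x _ => ?_
    show (A * (pm (mz (cl g))).eval x + -B * (mz (cl g) : ℝ)) ^ 2 = _
    ring
  simp only [e] at h
  refine Tendsto.congr' ?_ h
  filter_upwards [afix_ev ho, lam_ev ho.1] with j h3 h4
  rw [h3]
  simp only [WX_eq h4.1 h4.2 (a j) A B h1]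

end Pool.Agent.Q260.OE
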