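import Pool.Agent.Q260.OE.Stm

set_option autoImplicit false

/-!
# Project OE, second part: the best approximations and the case that the Riemann hypothesis fails
-/

namespace Pool.Agent.Q260.OE

open Complex MeasureTheory Filter Topology Set
open Pool.Agent.Q286.BD (cl mz dif JJ difR JR)
open Pool.Agent.Q260.GM (ph L2psi)

/-- the coefficients of the best approximation by `{1/(n x)}`, `n ≤ N` -/
def Best (N : ℕ) (a : ℕ → ℝ) : Prop := (∀ n, ¬ (1 ≤ n ∧ n ≤ N) → a n = 0) ∧ ∀ b : ℕ → ℝ, JJ N a ≤ JJ N b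

/-- natural dilations as real dilations -/
noncomputable def nt (N : ℕ) (a : ℕ → ℝ) : ℝ →₀ ℝ := ∑ n ∈ Finset.Icc 1 N, Finsupp.single (1 / (n : ℝ)) (a n)

/-- the error `χ(x) - ∑_{n ≤ N} a_n {1/(n x)}` at `x = e^{-w}` -/
noncomputable def Dn (N : ℕ) (a : ℕ → ℝ) (w : ℝ) : ℝ := dif N a (Real.exp (-w))

/-- its transform -/
noncomputable def Tn (N : ℕ) (a : ℕ → ℝ) (t : ℝ) : ℂ :=
  1 + riemannZeta (cl t) * ∑ n ∈ Finset.Icc 1 N, (a n : ℂ) * (n : ℂ) ^ (-cl t)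

/-- JOB NT: natural dilations as real dilations. Proof: the points `1/n` are distinct. `Finsupp.sum` of a sum of `single`s
(`Finsupp.sum_finset_sum_index`, additivity in the coefficient); `{(1/n)/x} = {1/(n x)}` (also for `x = 0`: both `0`);
`(1/n)^s = n^{-s}`. -/
def S_NT : Prop := ∀ (N : ℕ) (a : ℕ → ℝ), difR (nt N a) = dif N a ∧ JR (nt N a) = JJ N a ∧ De (nt N a) = Dn N a ∧
  (∀ t : ℝ, TT (nt N a) t = Tn N a t) ∧ (∀ θ ∈ (nt N a).support, 1 / (N : ℝ) ≤ θ ∧ θ ≤ 1)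

/-- JOB BST: the best approximation. Proof. `JJ N a = ∫ (χ - ∑ a_n e_n)²` with `e_n x = {1/(n x)}` in `L²(0,∞)`
(integrability: `S_coef`, `S_intR`). Existence: the distance from `χ` to the span of the `e_n`, `n ≤ N`, in `Lp ℝ 2` is attained (finite
dimensional subspace, orthogonal projection). Uniqueness: if `∑_{n≤N} c_n e_n = 0` a.e. then `c = 0`: for `x > 1` the sum is `(∑ c_n/n)/x`;
for `1/(k+1) < x < 1/k` it is `(∑ c_n/n)/x - ∑_{n ≤ k} ⌊k/n⌋ c_n`; so `∑_{n≤k} ⌊k/n⌋ c_n = 0` for all `k ≥ 1`, and `c_k = 0` by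
induction on `k`; two minimisers differ by a `c` with `‖∑ c_n e_n‖ = 0` (parallelogram law). (b) orthogonality: derivative of
`t ↦ JJ N (a + t c)` at `0`: `∫ dif N a · ∑ c_n e_n = 0`, so `∫_0^1 dif N a = ∫ dif N a · χ = JJ N a`. (c) for
`N ≤ M`, `b` best for `M`: `dif M b - dif N a` is in the span for `M`, so `‖dif N a‖² = ‖dif M b‖² + ‖dif M b - dif N a‖²`. (d) `JJ N 0 = 1`. -/
def S_BST : Prop :=
  (∀ N : ℕ, ∃! a : ℕ → ℝ, Best N a) ∧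
  (∀ (N : ℕ) (a : ℕ → ℝ), Best N a → ∫ x in Ioc (0 : ℝ) 1, dif N a x = JJ N a ∧ JJ N a ≤ 1) ∧
  ∀ (N M : ℕ) (a b : ℕ → ℝ), N ≤ M → Best N a → Best M b →
    IntegrableOn (fun x : ℝ => (dif M b x - dif N a x) ^ 2) (Ioi 0) ∧
    ∫ x in Ioi (0 : ℝ), (dif M b x - dif N a x) ^ 2 = JJ N a - JJ M b

/-- JOB COE: the coefficients tend to `-μ(n)` when the distance tends to `0`. Proof. `r = dif N a`, `S = ∑_{n≤N} a_n/n`. For `x > 1`:
`r = -S/x`, so `S² = ∫_{x>1} r² ≤ JJ`. For `1/(k+1) < x < 1/k`: `r = c_k - S/x` with `c_k = 1 + ∑_{n ≤ min(k,N)} ⌊k/n⌋ a_n`, so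
`|c_k| ≤ C_k √JJ` (interval of length `1/(k(k+1))`). `c_k - c_{k-1} = ∑_{d | k, d ≤ N} a_d` for `k ≥ 2` and `c_1 = 1 + a_1`. For `k ≤ n ≤ N`
this gives `|∑_{d|k} a_d + [k=1]| ≤ C √JJ`, and Moebius inversion `a_n + μ(n) = ∑_{d | n} μ(n/d) (∑_{e|d} a_e + [d=1])`. -/
def S_COE : Prop := ∀ n : ℕ, 1 ≤ n → ∃ C : ℝ, 0 < C ∧ ∀ (N : ℕ) (a : ℕ → ℝ), n ≤ N →
  |a n + ((ArithmeticFunction.moebius n : ℤ) : ℝ)| ≤ C * Real.sqrt (JJ N a)

/-- JOB NR1: if RH fails. Uses `S_nrh`, BST, XW, NT. Proof. `JJ N a ≥ c` always. With `D = Dn N (a N)`: `∫_0^∞ D e^{-w} dw = JJ ≥ c`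
(BST, XW). Cauchy-Schwarz: `|∫_M^∞ D e^{-w}| ≤ ‖D‖ e^{-M/2} ≤ e^{-M/2} ≤ c/2` for a fixed `M`; so `∫_0^M D e^{-w} ≥ c/2` and
`∫_0^M D² e^{-w} ≥ c²/4` (as `∫_0^M e^{-w} ≤ 1`). In `L²([0,M], e^{-w})`: `‖D + ph/L‖ ≥ c/2 - ‖ph‖_M/L ≥ c/4` for large `L`, so the
quantity is at least `L c²/16`. -/
def S_NR1 : Prop := ¬ RiemannHypothesis → ∀ a : ℕ → ℕ → ℝ, (∀ N, Best N (a N)) → ∃ c : ℝ, 0 < c ∧ ∀ᶠ N : ℕ in atTop,
  c * Real.log N ≤ Real.log N *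
    ∫ w in (0 : ℝ)..(Real.log N), (Dn N (a N) w + ph w / Real.log N) ^ 2 * Real.exp (-w)

/-- JOB NR2: if RH fails the error stays in place. Uses `S_nrh`, BST, XW. Proof. `JJ N (a N)` is decreasing in `N` and `≥ c > 0`, so the errors
are a Cauchy sequence (BST (c)): for `η > 0` there is `N0` with `∫ (Dn N - Dn N0)² e^{-w} ≤ η` for `N ≥ N0`. `∫_{w ≥ u log N}
(Dn N0)² e^{-w} → 0` as `N → ∞`. So `∫_{w ≥ u log N} (Dn N)² e^{-w} → 0`, and divided by `JJ ≥ c` too. -/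
def S_NR2 : Prop := ¬ RiemannHypothesis → ∀ a : ℕ → ℕ → ℝ, (∀ N, Best N (a N)) → ∀ u : ℝ, 0 < u →
  Tendsto (fun N : ℕ => (∫ w in Iio (u * Real.log N), Dn N (a N) w ^ 2 * Real.exp (-w)) / JJ N (a N)) atTop (𝓝 1)

/-- JOB NR3: the coefficients decide. Uses `S_nrh`, BST, XW. Proof. Suppose not RH, `JJ ≥ c`. `D = Dn N (a N)`, `S = ∑ a_n/n`
(`|S| ≤ √JJ ≤ 1`, from `w < 0`). On `[log k, log (k+1))`: `D = c_k - S e^w`, `c_k = 1 + ∑_{n≤k} ⌊k/n⌋ a_n → 1 - ∑_{n ≤ k} ⌊k/n⌋ μ(n) = 0`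
as `N → ∞` (`k` fixed). So for fixed `M`: `∫_0^M D e^{-w} dw = -S M + o(1)`. And `|∫_0^M D e^{-w} - JJ| ≤ e^{-M/2}` (BST: `∫_0^∞ D e^{-w} = JJ`;
Cauchy-Schwarz). Using `M` and `2M`: `|S M| ≤ 2 e^{-M/2} + o(1)`, so `JJ ≤ |S M| + e^{-M/2} + o(1) ≤ 3 e^{-M/2} + o(1)`. With `M` large this
is `< c`: contradiction. -/
def S_NR3 : Prop := ∀ a : ℕ → ℕ → ℝ, (∀ N, Best N (a N)) →
  (∀ n : ℕ, 1 ≤ n → Tendsto (fun N : ℕ => a N n) atTop (𝓝 (-((ArithmeticFunction.moebius n : ℤ) : ℝ)))) → RiemannHypothesis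

/-- JOB NR4: if RH fails some frequencies without zeros stay. Uses `S_nrh`, BST, `S_mel`. Proof. By Plancherel (`S_mel`-type identity for the
differences: `Tn M b - Tn N a = ζ ∑ (b_n - a_n) n^{-s}`; the polarised form of `mel`, or Plancherel for `GG`) the functions
`Tn N (a N) t / cl t` are a Cauchy sequence in `L²(ℝ)` (BST (c)), with limit `T`, `∫ |T|² = 2π lim JJ ≥ 2π c`. The ordinates `Go` are
a closed countable set (zeros of an analytic function), its complement is a countable union of compact intervals, so `∫_I |T|² > 0` for one compact interval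
`I = [α, β]` in the complement, and `∫_I |Tn/cl t|² → ∫_I |T|²`. -/
def S_NR4 : Prop := ¬ RiemannHypothesis → ∀ a : ℕ → ℕ → ℝ, (∀ N, Best N (a N)) → ∃ α β c : ℝ, α < β ∧ 0 < c ∧
  (∀ t ∈ Icc α β, riemannZeta (cl t) ≠ 0) ∧ ∀ᶠ N : ℕ in atTop,
  c ≤ 1 / (2 * Real.pi) * (∫ t in α..β, ‖Tn N (a N) t‖ ^ 2 / (1 / 4 + t ^ 2)) / JJ N (a N)

/-- JOB UNI: uniform distribution of the place means simple zeros. Uses LEG, `summ_line`. Proof. Suppose `m(g0) ≥ 2` for a zero. For finite `S ⊆ Go`, `0 < u`: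
`∑_{g∈S} (∫_0^u p_g²)/(1/4+g²) ≤ u BB`. Divide by `u → 0`: `(1/u) ∫_0^u p² → p(0)² = m⁴`. So `∑_{g∈S} m⁴/(1/4+g²) ≤ BB` for all finite
`S`, hence `∑' m⁴/(1/4+g²) ≤ BB = ∑' m²/(1/4+g²)`; but `m⁴ ≥ m²` with `>` at `g0`. -/
def S_UNI : Prop := RiemannHypothesis →
  (∀ u : ℝ, 0 ≤ u → u ≤ 1 → ∑' g : Go, (∫ x in (0 : ℝ)..u, (pm (mz (cl g))).eval x ^ 2) / (1 / 4 + (g : ℝ) ^ 2) = u * BB) →
  ∀ g : Go, mz (cl g) = 1

/-- JOB POS: facts on the zeros. Uses `S_sum2`, `S_const`. Proof. A zero of zeta in the strip has multiplicity `≥ 1` (analytic, not locally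
zero). Under RH there is a zero (pool: Hardy's theorem or any lower bound for the number of zeros; or `S_const`:
`∑' m/‖ρ‖² = 2 + γ - log 4π > 0` if the numerics are available), so `BB > 0`. If the series `∑' 2m(m-1)/(1/4+g²)` vanishes all `m = 1`
(nonnegative terms, summable by `summ_line`: `m(m-1) ≤ m²`). `∑' m/(1/4+g²) = 2+γ-log 4π`: `S_const` and `Pool.Agent.Q286.BD.eqv`. -/
def S_POS : Prop := (∀ g : Go, 1 ≤ mz (cl g)) ∧ (RiemannHypothesis → 0 < BB ∧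
  (∑' g : Go, (mz (cl g) : ℝ) / (1 / 4 + (g : ℝ) ^ 2) = 2 + Real.eulerMascheroniConstant - Real.log (4 * Real.pi)) ∧
  (∑' g : Go, 2 * (mz (cl g) : ℝ) * ((mz (cl g) : ℝ) - 1) / (1 / 4 + (g : ℝ) ^ 2) = 0 → ∀ g : Go, mz (cl g) = 1))

end Pool.Agent.Q260.OE
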