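import Pool.Agent.Q260.OE.Stm

set_option autoImplicit false

/-!
# Project OE: the error and the prime error in a window of frequencies
-/

namespace Pool.Agent.Q260.OE

open Complex MeasureTheory Filter Topology Set
open Pool.Agent.Q286.BD (cl mz dif JJ difR JR)
open Pool.Agent.Q260.GM (ph L2psi)

/-- the transform of the prime error on `[0, L]` (for `y = e^w`: `∫_1^{e^L} (ψ(y) - y) y^{-s-1} dy`, `s = 1/2 + it`) -/
noncomputable def PT (L t : ℝ) : ℂ := ∫ w in (0 : ℝ)..L, (ph w : ℂ) * cexp (-(cl t * w))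

/-- JOB FRW: the window law for the error and the prime error together. Uses STR, CR4, PL, FFB, PLG, LEG, `S_sum2`. **Proof** (compare the proof of
`S_FRQ` in `Pool/Agent/Q123/OE/Frq.lean` and of `S_QF` in `Pool/Agent/Q123/OE/Qf.lean`).  `L = Lf j`, `p_g = pm (mz (cl g))`, `m_g = mz (cl g)`. For finite `S ⊆ Go`
`TT t/cl t` is the transform `∫ D e^{-cl t w} dw` of `D = De (af j)`. Write
`α D - β (ph/L) 1_[0,L] = α (D - Mo S L) + (1/L) 1_[0,L] ∑_{g∈S} (α p_g(w/L) + β m_g) e^{w cl g}/cl g - (β/L) (ph + ZS S) 1_[0,L]`.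
Transforms, in `L²(α', β')` (window): first part: `L/(2π) ∫ ‖·‖² ≤ α² (L JR - BS S + C L^{-1/2}) → α² (BB - BS S)` (PL, STR); third part:
`h = (ph + ZS S) 1_[0,L] e^{-w/2}` in PLG: `L/(2π) ∫_ℝ ‖·‖² = (β²/L) ∫_0^L ‖ph + ZS S‖² e^{-w} ≤ β² ε` for `S ⊇ S0` and large `L` (CR4); second
part: `∑_{g∈S} H_g((t-g)L)/cl g` with `H_g(v) = ∫_0^1 (α p_g(u) + β m_g) e^{-iuv} du = α FF m_g v + β m_g FF 1 v`
(`pm 1 = 1`), which is continuous, `≤ C/(1+|v|)`, and `(1/2π) ∫ ‖H_g‖² = ∫_0^1 (α p_g + β m_g)²` (Parseval; or polarise `S_FFB`: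
it is `α² m² + 2αβ m + β² m²`, from `S_FFB` for `m` and for `1` and the cross term `(1/2π) Re ∫ FF m conj (FF 1) = ∫_0^1 p = 1` by Plancherel `S_PLG`
for sums); as in FRQ: `L/(2π) ∫_{α'}^{β'} ‖second‖² → ∑_{g∈S, α'<g<β'} (∫_0^1 (α p_g + β m_g)²)/(1/4+g²)`. Triangle inequality, `S ↑ Go`. -/
def S_FRW : Prop := RiemannHypothesis → ∀ (Lf : ℕ → ℝ) (af : ℕ → (ℝ →₀ ℝ)), Fam Lf af → ∀ a b α β : ℝ, α < β →
  riemannZeta (cl α) ≠ 0 → riemannZeta (cl β) ≠ 0 →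
  Tendsto (fun j => Lf j * (1 / (2 * Real.pi) * ∫ t in α..β, ‖(a : ℂ) * (TT (af j) t / cl t) - b * PT (Lf j) t / Lf j‖ ^ 2))
    atTop (𝓝 (∑' g : Go, if α < (g : ℝ) ∧ (g : ℝ) < β then
      (∫ x in (0 : ℝ)..1, (a * (pm (mz (cl g))).eval x + b * (mz (cl g) : ℝ)) ^ 2) / (1 / 4 + (g : ℝ) ^ 2) else 0))

end Pool.Agent.Q260.OE
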